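import Mathlib
import Pool.Agent.H16.BV.Complex

/-!
Finite resolutions by finitely generated projective modules: direct sums, summands, kernels.

PROOFS. `HasRes.succ`: for `n = 0` take `P = M`, `f = id`, its kernel is zero (finite and
projective); then induction. `HasRes.prod`: product of the two surjections; the kernel of
`f.prodMap g` is equivalent to `ker f × ker g`.
`HasRes.of_prod` and `HasRes.ker` together by induction on `n` (prove the conjunction).
`of_prod 0`: a summand of a finitely generated projective module. `ker n` from `of_prod n`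
(SCHANUEL): let `g : P₀ → M` be the surjection of `HasRes R (n+1) M`, with kernel `K₀`, `HasRes R n
K₀`; `f : P → M` surjective with kernel `K`. Let `E = {(p, q) | f p = g q}`, i.e. the kernel of
`(p, q) ↦ f p - g q : P × P₀ → M`. As `P` is projective, there is `s : P → P₀` with `g ∘ s = f`
(`Module.projective_lifting_property`), and `t : P₀ → P` with `f ∘ t = g`. Then
`K₀ × P ≃ E`, `(k, p) ↦ (p, s p + k)` and `K × P₀ ≃ E`, `(k, q) ↦ (t q + k, q)`. So
`HasRes R n (K × P₀)` by `prod`, `mono`, `equiv`, and `of_prod n` gives `HasRes R n K`.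
`of_prod (n+1)` from `ker n` and `of_prod n`: `M × N` is finitely generated, so `M` and `N` are
quotients of `Fin k → R`, `Fin l → R` (`Module.Finite.exists_fin'`); the product map onto `M × N` has
kernel `≃ ker × ker`, which has `HasRes R n` by `ker n`; so `HasRes R n (ker (F → M))`.
-/

set_option autoImplicit false

namespace Pool.Agent.H16.BV

open Function

variable {R : Type} [Ring R]

theorem HasRes.finite {n : ℕ} {M : Type} [AddCommGroup M] [Module R M] (h : HasRes R n M) :
    Module.Finite R M := by
  cases n with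
  | zero => exact h.1
  | succ n =>
    obtain ⟨P, iP, mP, f, hf, hfin, _, _⟩ := h
    exact Module.Finite.of_surjective f hf

theorem HasRes.succ {n : ℕ} {M : Type} [AddCommGroup M] [Module R M] (h : HasRes R n M) :
    HasRes R (n + 1) M := by
  induction n generalizing M with
  | zero =>
    obtain ⟨h1, h2⟩ := h
    refine ⟨M, inferInstance, inferInstance, LinearMap.id, fun x => ⟨x, rfl⟩, h1, h2, ?_⟩
    have : Subsingleton (LinearMap.ker (LinearMap.id : M →ₗ[R] M)) := by
      rw [LinearMap.ker_id]
      infer_instance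
    exact ⟨inferInstance, inferInstance⟩
  | succ n ih =>
    obtain ⟨P, iP, mP, f, hf, hfin, hproj, hk⟩ := h
    exact ⟨P, iP, mP, f, hf, hfin, hproj, ih hk⟩

theorem HasRes.mono {n m : ℕ} (hnm : n ≤ m) {M : Type} [AddCommGroup M] [Module R M]
    (h : HasRes R n M) : HasRes R m M := by
  induction hnm with
  | refl => exact h
  | step _ ih => exact ih.succ

private def kerProdEquiv {P Q M N : Type} [AddCommGroup P] [Module R P] [AddCommGroup Q]
    [Module R Q] [AddCommGroup M] [Module R M] [AddCommGroup N] [Module R N]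
    (f : P →ₗ[R] M) (g : Q →ₗ[R] N) :
    (LinearMap.ker f × LinearMap.ker g) ≃ₗ[R] LinearMap.ker (f.prodMap g) where
  toFun x := ⟨(x.1.1, x.2.1), by
    rw [LinearMap.mem_ker, LinearMap.prodMap_apply]
    exact Prod.ext x.1.2 x.2.2⟩
  invFun y := (⟨y.1.1, by
    have h := y.2
    rw [LinearMap.mem_ker, LinearMap.prodMap_apply] at h
    exact congrArg Prod.fst h⟩, ⟨y.1.2, by
    have h := y.2
    rw [LinearMap.mem_ker, LinearMap.prodMap_apply] at h
    exact congrArg Prod.snd h⟩)
  left_inv _ := rfl
  right_inv _ := rfl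
  map_add' _ _ := rfl
  map_smul' _ _ := rfl

theorem HasRes.prod {n : ℕ} {M N : Type} [AddCommGroup M] [Module R M] [AddCommGroup N]
    [Module R N] (hM : HasRes R n M) (hN : HasRes R n N) : HasRes R n (M × N) := by
  induction n generalizing M N with
  | zero =>
    obtain ⟨h1, h2⟩ := hM
    obtain ⟨h3, h4⟩ := hN
    exact ⟨inferInstance, inferInstance⟩
  | succ n ih =>
    obtain ⟨P, iP, mP, f, hf, hfin, hproj, hk⟩ := hM
    obtain ⟨Q, iQ, mQ, g, hg, hfin', hproj', hk'⟩ := hN
    refine ⟨P × Q, inferInstance, inferInstance, f.prodMap g, ?_, inferInstance, inferInstance,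
      HasRes.equiv n (kerProdEquiv f g) (ih hk hk')⟩
    rintro ⟨x, y⟩
    obtain ⟨a, rfl⟩ := hf x
    obtain ⟨b, rfl⟩ := hg y
    exact ⟨(a, b), rfl⟩

private theorem of_prod_zero {M N : Type} [AddCommGroup M] [Module R M] [AddCommGroup N]
    [Module R N] (h : HasRes R 0 (M × N)) : HasRes R 0 M := by
  obtain ⟨h1, h2⟩ := h
  refine ⟨Module.Finite.of_surjective (LinearMap.fst R M N) LinearMap.fst_surjective, ?_⟩
  exact Module.Projective.of_split (LinearMap.inl R M N) (LinearMap.fst R M N)
    (LinearMap.fst_comp_inl R M N)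

private def shearEquiv {P Q M : Type} [AddCommGroup P] [Module R P] [AddCommGroup Q]
    [Module R Q] [AddCommGroup M] [Module R M] (f : P →ₗ[R] M) (g : Q →ₗ[R] M)
    (s : P →ₗ[R] Q) (hs : ∀ x, g (s x) = f x) :
    (LinearMap.ker g × P) ≃ₗ[R] LinearMap.ker (f.coprod (-g)) where
  toFun x := ⟨(x.2, s x.2 + x.1.1), by
    have h := x.1.2
    rw [LinearMap.mem_ker] at h
    rw [LinearMap.mem_ker, LinearMap.coprod_apply]
    simp [hs, h]⟩
  invFun y := (⟨y.1.2 - s y.1.1, by
    have h := y.2
    rw [LinearMap.mem_ker, LinearMap.coprod_apply, LinearMap.neg_apply, ← sub_eq_add_neg,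
      sub_eq_zero] at h
    rw [LinearMap.mem_ker, map_sub, hs, h, sub_self]⟩, y.1.1)
  left_inv x := by
    refine Prod.ext (Subtype.ext ?_) rfl
    simp
  right_inv y := by
    refine Subtype.ext (Prod.ext rfl ?_)
    simp
  map_add' x y := by
    refine Subtype.ext (Prod.ext rfl ?_)
    simp only [Prod.snd_add, map_add, Prod.fst_add, Submodule.coe_add]
    abel
  map_smul' r x := by
    refine Subtype.ext (Prod.ext rfl ?_)
    simp

private def shearEquiv' {P Q M : Type} [AddCommGroup P] [Module R P] [AddCommGroup Q]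
    [Module R Q] [AddCommGroup M] [Module R M] (f : P →ₗ[R] M) (g : Q →ₗ[R] M)
    (t : Q →ₗ[R] P) (ht : ∀ x, f (t x) = g x) :
    (LinearMap.ker f × Q) ≃ₗ[R] LinearMap.ker (f.coprod (-g)) where
  toFun x := ⟨(t x.2 + x.1.1, x.2), by
    have h := x.1.2
    rw [LinearMap.mem_ker] at h
    rw [LinearMap.mem_ker, LinearMap.coprod_apply]
    simp [ht, h]⟩
  invFun y := (⟨y.1.1 - t y.1.2, by
    have h := y.2
    rw [LinearMap.mem_ker, LinearMap.coprod_apply, LinearMap.neg_apply, ← sub_eq_add_neg,
      sub_eq_zero] at h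
    rw [LinearMap.mem_ker, map_sub, ht, h, sub_self]⟩, y.1.2)
  left_inv x := by
    refine Prod.ext (Subtype.ext ?_) rfl
    simp
  right_inv y := by
    refine Subtype.ext (Prod.ext ?_ rfl)
    simp
  map_add' x y := by
    refine Subtype.ext (Prod.ext ?_ rfl)
    simp only [Prod.snd_add, map_add, Prod.fst_add, Submodule.coe_add]
    abel
  map_smul' r x := by
    refine Subtype.ext (Prod.ext ?_ rfl)
    simp

private theorem ker_aux (n : ℕ) (hprod : ∀ (M N : Type) [AddCommGroup M] [Module R M]
    [AddCommGroup N] [Module R N], HasRes R n (M × N) → HasRes R n M)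
    {P M : Type} [AddCommGroup P] [Module R P] [AddCommGroup M]
    [Module R M] [hP1 : Module.Finite R P] [hP2 : Module.Projective R P] (f : P →ₗ[R] M)
    (hf : Surjective f) (h : HasRes R (n + 1) M) : HasRes R n (LinearMap.ker f) := by
  obtain ⟨P0, i0, m0, g, hg, hfin, hproj, hk⟩ := h
  obtain ⟨s, hs⟩ := Module.projective_lifting_property g f hg
  obtain ⟨t, ht⟩ := Module.projective_lifting_property f g hf
  have hP : HasRes R n P := HasRes.mono (Nat.zero_le n) ⟨hP1, hP2⟩
  have h1 : HasRes R n (LinearMap.ker (f.coprod (-g))) :=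
    HasRes.equiv n (shearEquiv f g s (fun x => LinearMap.congr_fun hs x)) (hk.prod hP)
  have h2 : HasRes R n (LinearMap.ker f × P0) :=
    HasRes.equiv n (shearEquiv' f g t (fun x => LinearMap.congr_fun ht x)).symm h1
  exact hprod _ _ h2

private theorem of_prod_aux (n : ℕ) : ∀ (M N : Type) [AddCommGroup M] [Module R M]
    [AddCommGroup N] [Module R N], HasRes R n (M × N) → HasRes R n M := by
  induction n with
  | zero =>
    intro M N _ _ _ _ h
    exact of_prod_zero h
  | succ n ih =>
    intro M N _ _ _ _ h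
    have hfin := h.finite
    have hM : Module.Finite R M :=
      Module.Finite.of_surjective (LinearMap.fst R M N) LinearMap.fst_surjective
    have hN : Module.Finite R N :=
      Module.Finite.of_surjective (LinearMap.snd R M N) LinearMap.snd_surjective
    obtain ⟨k, a, ha⟩ := Module.Finite.exists_fin' R M
    obtain ⟨l, b, hb⟩ := Module.Finite.exists_fin' R N
    have hs : Surjective (a.prodMap b) := by
      rintro ⟨x, y⟩
      obtain ⟨u, rfl⟩ := ha x
      obtain ⟨v, rfl⟩ := hb y
      exact ⟨(u, v), rfl⟩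
    have h1 := ker_aux n ih (a.prodMap b) hs h
    have h2 : HasRes R n (LinearMap.ker a × LinearMap.ker b) :=
      HasRes.equiv n (kerProdEquiv a b).symm h1
    exact ⟨Fin k → R, inferInstance, inferInstance, a, ha, inferInstance, inferInstance,
      ih _ _ h2⟩

theorem HasRes.of_prod {n : ℕ} {M N : Type} [AddCommGroup M] [Module R M] [AddCommGroup N]
    [Module R N] (h : HasRes R n (M × N)) : HasRes R n M :=
  of_prod_aux n M N h

theorem HasRes.ker {n : ℕ} {P M : Type} [AddCommGroup P] [Module R P] [AddCommGroup M]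
    [Module R M] [Module.Finite R P] [Module.Projective R P] (f : P →ₗ[R] M) (hf : Surjective f)
    (h : HasRes R (n + 1) M) : HasRes R n (LinearMap.ker f) :=
  ker_aux n (of_prod_aux n) f hf h

end Pool.Agent.H16.BV
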