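import Mathlib
import Pool.Agent.H16.BW.Res

/-!
Short exact sequences `0 → A → B → C → 0`: resolutions of `A` and `C` give one of `B` (horseshoe),
resolutions of `A` and `B` give one of `C`.

PROOFS. `ext`, induction on `n`. `n = 0`: `C` is projective, so `g` splits and `B ≃ A × C`.
`n + 1`: `a : P → A`, `c : Q → C` surjective, `P`, `Q` finitely generated projective with kernels
`HasRes R n`; `c' : Q → B` with `g ∘ c' = c` (`Module.projective_lifting_property`);
`d : P × Q → B`, `(p, q) ↦ f (a p) + c' q` is surjective; the sequence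
`0 → ker a → ker d → ker c → 0` (`p ↦ (p, 0)`, `(p, q) ↦ q`) is exact; apply the induction
hypothesis to it.
`cok`: by `HasRes.succ`, `B` has a surjection `b : P → B` with kernel `HasRes R n`. The map
`g ∘ b : P → C` is surjective; `0 → ker b → ker (g ∘ b) → A → 0` is exact, where
`ker (g ∘ b) → A` is `p ↦` the unique `a` with `f a = b p` (`LinearEquiv.ofInjective f hf` onto the
range); so `HasRes R n (ker (g ∘ b))` by `ext`.
-/

set_option autoImplicit false

namespace Pool.Agent.H16.BV

open Function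

variable {R : Type} [Ring R]

theorem HasRes.ext {n : ℕ} {A B C : Type} [AddCommGroup A] [Module R A] [AddCommGroup B]
    [Module R B] [AddCommGroup C] [Module R C] (f : A →ₗ[R] B) (g : B →ₗ[R] C)
    (hf : Injective f) (hg : Surjective g) (hex : ∀ y, g y = 0 ↔ ∃ x, f x = y)
    (hA : HasRes R n A) (hC : HasRes R n C) : HasRes R n B := by
  induction n generalizing A B C with
  | zero =>
    obtain ⟨hA1, hA2⟩ := hA
    obtain ⟨hC1, hC2⟩ := hC
    obtain ⟨s, hs⟩ := Module.projective_lifting_property g LinearMap.id hg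
    have hs' : ∀ c, g (s c) = c := fun c => by
      have := LinearMap.congr_fun hs c
      simpa using this
    have hgf : ∀ x, g (f x) = 0 := fun x => (hex _).2 ⟨x, rfl⟩
    let e0 : (A × C) →ₗ[R] B := f.coprod s
    have he0 : Bijective e0 := by
      constructor
      · rw [injective_iff_map_eq_zero]
        rintro ⟨x, c⟩ h
        have h1 : f x + s c = 0 := h
        have h2 : c = 0 := by
          have := congrArg g h1
          rwa [map_add, hgf, hs', zero_add, map_zero] at this
        subst h2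
        have h3 : x = 0 := by
          rw [map_zero, add_zero] at h1
          exact (injective_iff_map_eq_zero f).1 hf x h1
        rw [h3]
        rfl
      · intro y
        have h1 : g (y - s (g y)) = 0 := by rw [map_sub, hs', sub_self]
        obtain ⟨x, hx⟩ := (hex _).1 h1
        refine ⟨(x, g y), ?_⟩
        change f x + s (g y) = y
        rw [hx, sub_add_cancel]
    let e : (A × C) ≃ₗ[R] B := LinearEquiv.ofBijective e0 he0
    exact ⟨Module.Finite.equiv e, Module.Projective.of_equiv e⟩
  | succ n ih =>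
    obtain ⟨P, iP, mP, a, ha, hPf, hPp, hka⟩ := hA
    obtain ⟨Q, iQ, mQ, c, hc, hQf, hQp, hkc⟩ := hC
    obtain ⟨c', hc'⟩ := Module.projective_lifting_property g c hg
    have hc2 : ∀ q, g (c' q) = c q := fun q => LinearMap.congr_fun hc' q
    have hgf : ∀ x, g (f x) = 0 := fun x => (hex _).2 ⟨x, rfl⟩
    let d : (P × Q) →ₗ[R] B := (f.comp a).coprod c'
    have hd : ∀ p q, d (p, q) = f (a p) + c' q := fun p q => rfl
    have hdk : ∀ z ∈ LinearMap.ker d, c z.2 = 0 := by
      rintro ⟨p, q⟩ h
      have h1 : f (a p) + c' q = 0 := h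
      have := congrArg g h1
      rwa [map_add, hgf, hc2, zero_add, map_zero] at this
    have hd1 : Surjective d := by
      intro y
      obtain ⟨q, hq⟩ := hc (g y)
      have h1 : g (y - c' q) = 0 := by rw [map_sub, hc2, hq, sub_self]
      obtain ⟨x, hx⟩ := (hex _).1 h1
      obtain ⟨p, hp⟩ := ha x
      refine ⟨(p, q), ?_⟩
      rw [hd, hp, hx, sub_add_cancel]
    let f' : LinearMap.ker a →ₗ[R] LinearMap.ker d :=
      LinearMap.codRestrict _ ((LinearMap.inl R P Q).comp (LinearMap.ker a).subtype) (by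
        rintro ⟨p, hp⟩
        change f (a p) + c' 0 = 0
        rw [LinearMap.mem_ker.1 hp, map_zero, map_zero, add_zero])
    let g' : LinearMap.ker d →ₗ[R] LinearMap.ker c :=
      LinearMap.codRestrict _ ((LinearMap.snd R P Q).comp (LinearMap.ker d).subtype) (by
        rintro ⟨z, hz⟩
        exact hdk z hz)
    refine ⟨P × Q, inferInstance, inferInstance, d, hd1, inferInstance, inferInstance, ?_⟩
    refine ih f' g' ?_ ?_ ?_ hka hkc
    · rintro ⟨p, hp⟩ ⟨p', hp'⟩ h
      have h1 : ((p, 0) : P × Q) = (p', 0) := congrArg Subtype.val h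
      exact Subtype.ext (Prod.mk.inj h1).1
    · rintro ⟨q, hq⟩
      have h1 : g (c' q) = 0 := by rw [hc2]; exact hq
      obtain ⟨x, hx⟩ := (hex _).1 h1
      obtain ⟨p, hp⟩ := ha x
      refine ⟨⟨(-p, q), ?_⟩, ?_⟩
      · change f (a (-p)) + c' q = 0
        rw [map_neg, map_neg, hp, hx, neg_add_cancel]
      · exact Subtype.ext rfl
    · rintro ⟨⟨p, q⟩, hz⟩
      constructor
      · intro h
        have h1 : q = 0 := congrArg Subtype.val h
        subst h1
        have h2 : f (a p) + c' 0 = 0 := hz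
        rw [map_zero, add_zero] at h2
        exact ⟨⟨p, (injective_iff_map_eq_zero f).1 hf _ h2⟩, Subtype.ext rfl⟩
      · rintro ⟨⟨p', hp'⟩, h⟩
        have h1 : ((p', 0) : P × Q) = (p, q) := congrArg Subtype.val h
        apply Subtype.ext
        change q = 0
        exact ((Prod.mk.inj h1).2).symm

theorem HasRes.cok {n : ℕ} {A B C : Type} [AddCommGroup A] [Module R A] [AddCommGroup B]
    [Module R B] [AddCommGroup C] [Module R C] (f : A →ₗ[R] B) (g : B →ₗ[R] C)
    (hf : Injective f) (hg : Surjective g) (hex : ∀ y, g y = 0 ↔ ∃ x, f x = y)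
    (hA : HasRes R n A) (hB : HasRes R n B) : HasRes R (n + 1) C := by
  obtain ⟨P, iP, mP, b, hb, hPf, hPp, hkb⟩ := hB.succ
  have hgf : ∀ x, g (f x) = 0 := fun x => (hex _).2 ⟨x, rfl⟩
  refine ⟨P, iP, mP, g.comp b, hg.comp hb, hPf, hPp, ?_⟩
  let E := LinearEquiv.ofInjective f hf
  let b1 : LinearMap.ker (g.comp b) →ₗ[R] LinearMap.range f :=
    LinearMap.codRestrict _ (b.comp (LinearMap.ker (g.comp b)).subtype) (by
      rintro ⟨p, hp⟩
      obtain ⟨x, hx⟩ := (hex (b p)).1 hp
      exact ⟨x, hx⟩)
  let g' : LinearMap.ker (g.comp b) →ₗ[R] A := E.symm.toLinearMap.comp b1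
  have hg' : ∀ z, f (g' z) = b z.1 := by
    intro z
    have h1 : (E (E.symm (b1 z))).1 = b z.1 := by
      rw [LinearEquiv.apply_symm_apply]
      rfl
    rw [← h1]
    rfl
  let f' : LinearMap.ker b →ₗ[R] LinearMap.ker (g.comp b) :=
    LinearMap.codRestrict _ (LinearMap.ker b).subtype (by
      rintro ⟨p, hp⟩
      change g (b p) = 0
      rw [LinearMap.mem_ker.1 hp, map_zero])
  refine HasRes.ext f' g' ?_ ?_ ?_ hkb hA
  · rintro ⟨p, hp⟩ ⟨p', hp'⟩ h
    have h1 : p = p' := congrArg Subtype.val h
    exact Subtype.ext h1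
  · intro x
    obtain ⟨p, hp⟩ := hb (f x)
    refine ⟨⟨p, ?_⟩, ?_⟩
    · change g (b p) = 0
      rw [hp, hgf]
    · apply hf
      rw [hg', hp]
  · intro z
    constructor
    · intro h
      refine ⟨⟨z.1, ?_⟩, Subtype.ext rfl⟩
      rw [LinearMap.mem_ker, ← hg', h, map_zero]
    · rintro ⟨⟨p, hp⟩, h⟩
      have h1 : p = z.1 := congrArg Subtype.val h
      apply hf
      rw [hg', map_zero, ← h1]
      exact hp

end Pool.Agent.H16.BV
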