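import Mathlib
import Pool.Agent.H16.BV.Complex

/-!
The module induced from an injective homomorphism `φ : H → Q`: finitely supported functions from the
cosets `Q / φ(H)` to `M`, with the action twisted by the cocycle `eta`.

PROOFS. `eta_exists`: `Quotient.out (q • x)` and `q * Quotient.out x` are in the same coset
(`QuotientGroup.eq`, `QuotientGroup.out_eq'`). `eta_mul`: apply `φ` and injectivity. `indMap`:
`Finsupp.mapRange`, equivariant; use the lemma `toLin`.
-/

set_option autoImplicit false

namespace Pool.Agent.H16.BV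

open Function

/-- An equivariant map as a linear map over the group ring. -/
noncomputable def toLin {Q V W : Type} [Group Q] [AddCommGroup V] [AddCommGroup W]
    (ρ : Representation ℤ Q V) (σ : Representation ℤ Q W) (f : V →ₗ[ℤ] W)
    (hf : ∀ q z, f (ρ q z) = σ q (f z)) : ρ.asModule →ₗ[MonoidAlgebra ℤ Q] σ.asModule where
  toFun z := σ.asModuleEquiv.symm (f (ρ.asModuleEquiv z))
  map_add' x y := by simp
  map_smul' r x := by
    simp only [RingHom.id_apply]
    rw [LinearEquiv.symm_apply_eq, Representation.asModuleEquiv_map_smul,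
      Representation.asModuleEquiv_map_smul, LinearEquiv.apply_symm_apply]
    induction r using MonoidAlgebra.induction_linear with
    | zero => simp
    | add a b ha hb => simp only [map_add, LinearMap.add_apply, ha, hb]
    | single q a => simp [Representation.asAlgebraHom_single, hf]

theorem toLin_apply {Q V W : Type} [Group Q] [AddCommGroup V] [AddCommGroup W]
    (ρ : Representation ℤ Q V) (σ : Representation ℤ Q W) (f : V →ₗ[ℤ] W)
    (hf : ∀ q z, f (ρ q z) = σ q (f z)) (z : ρ.asModule) :
    σ.asModuleEquiv (toLin ρ σ f hf z) = f (ρ.asModuleEquiv z) := by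
  simp [toLin]

variable {H Q : Type} [Group H] [Group Q] (φ : H →* Q)

theorem eta_exists (q : Q) (x : Q ⧸ φ.range) :
    ∃ h : H, φ h = (Quotient.out (q • x))⁻¹ * (q * Quotient.out x) := by
  have h1 : ((Quotient.out (q • x) : Q) : Q ⧸ φ.range) = ((q * Quotient.out x : Q) : Q ⧸ φ.range) := by
    rw [QuotientGroup.out_eq']
    have h2 : ((q * Quotient.out x : Q) : Q ⧸ φ.range) = q • ((Quotient.out x : Q) : Q ⧸ φ.range) :=
      rfl
    rw [h2, QuotientGroup.out_eq']
  exact QuotientGroup.eq.1 h1

/-- The cocycle. -/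
noncomputable def eta (q : Q) (x : Q ⧸ φ.range) : H := (eta_exists φ q x).choose

theorem eta_spec (q : Q) (x : Q ⧸ φ.range) :
    Quotient.out (q • x) * φ (eta φ q x) = q * Quotient.out x := by
  rw [eta, (eta_exists φ q x).choose_spec]
  group

theorem eta_mul (hφ : Injective φ) (a b : Q) (x : Q ⧸ φ.range) :
    eta φ (a * b) x = eta φ a (b • x) * eta φ b x := by
  apply hφ
  have h1 := eta_spec φ (a * b) x
  have h2 := eta_spec φ a (b • x)
  have h3 := eta_spec φ b x
  rw [map_mul]
  apply mul_left_cancel (a := Quotient.out ((a * b) • x))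
  rw [h1, ← mul_assoc]
  have h4 : Quotient.out ((a * b) • x) * φ (eta φ a (b • x)) = a * Quotient.out (b • x) := by
    rw [← h2, mul_smul]
  rw [h4, mul_assoc, mul_assoc, h3]

theorem eta_one (hφ : Injective φ) (x : Q ⧸ φ.range) : eta φ 1 x = 1 := by
  apply hφ
  have h1 := eta_spec φ 1 x
  rw [one_smul, one_mul] at h1
  rw [map_one]
  exact mul_eq_left.1 h1

/-- The action of a group element on a module over the group ring. -/
noncomputable def hAct (M : Type) [AddCommGroup M] [Module (MonoidAlgebra ℤ H) M] (h : H) :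
    M →ₗ[ℤ] M :=
  (AddMonoidHom.mk' (fun m : M => (MonoidAlgebra.single h (1 : ℤ)) • m)
    (fun x y => smul_add _ x y)).toIntLinearMap

theorem hAct_apply (M : Type) [AddCommGroup M] [Module (MonoidAlgebra ℤ H) M] (h : H) (m : M) :
    hAct M h m = (MonoidAlgebra.single h (1 : ℤ)) • m := rfl

theorem hAct_mul (M : Type) [AddCommGroup M] [Module (MonoidAlgebra ℤ H) M] (a b : H) (m : M) :
    hAct M (a * b) m = hAct M a (hAct M b m) := by
  rw [hAct_apply, hAct_apply, hAct_apply, smul_smul, MonoidAlgebra.single_mul_single, one_mul]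

theorem hAct_one (M : Type) [AddCommGroup M] [Module (MonoidAlgebra ℤ H) M] (m : M) :
    hAct M (1 : H) m = m := by
  rw [hAct_apply, ← MonoidAlgebra.one_def, one_smul]

/-- The induced representation. -/
noncomputable def indRep (hφ : Injective φ) (M : Type) [AddCommGroup M]
    [Module (MonoidAlgebra ℤ H) M] : Representation ℤ Q ((Q ⧸ φ.range) →₀ M) where
  toFun q := Finsupp.lsum ℤ fun x => (Finsupp.lsingle (q • x)).comp (hAct M (eta φ q x))
  map_one' := by
    refine Finsupp.lhom_ext fun x m => ?_
    rw [Finsupp.lsum_single, LinearMap.comp_apply, Finsupp.lsingle_apply, eta_one φ hφ, hAct_one,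
      one_smul]
    rfl
  map_mul' a b := by
    refine Finsupp.lhom_ext fun x m => ?_
    rw [Finsupp.lsum_single, LinearMap.comp_apply, Finsupp.lsingle_apply, eta_mul φ hφ, hAct_mul,
      mul_smul, Module.End.mul_apply, Finsupp.lsum_single, LinearMap.comp_apply,
      Finsupp.lsingle_apply, Finsupp.lsum_single, LinearMap.comp_apply, Finsupp.lsingle_apply]

theorem indRep_single (hφ : Injective φ) (M : Type) [AddCommGroup M]
    [Module (MonoidAlgebra ℤ H) M] (q : Q) (x : Q ⧸ φ.range) (m : M) :
    indRep φ hφ M q (Finsupp.single x m) = Finsupp.single (q • x) (hAct M (eta φ q x) m) := by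
  show Finsupp.lsum ℤ (fun x => (Finsupp.lsingle (q • x)).comp (hAct M (eta φ q x)))
    (Finsupp.single x m) = _
  rw [Finsupp.lsum_single, LinearMap.comp_apply, Finsupp.lsingle_apply]

variable {M N : Type} [AddCommGroup M] [Module (MonoidAlgebra ℤ H) M] [AddCommGroup N]
  [Module (MonoidAlgebra ℤ H) N]

/-- The induced map. -/
noncomputable def indMap (hφ : Injective φ) (f : M →ₗ[MonoidAlgebra ℤ H] N) :
    (indRep φ hφ M).asModule →ₗ[MonoidAlgebra ℤ Q] (indRep φ hφ N).asModule :=
  toLin _ _ (Finsupp.mapRange.linearMap f.toAddMonoidHom.toIntLinearMap) (by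
    intro q z
    induction z using Finsupp.induction_linear with
    | zero => simp only [map_zero]
    | add a b ha hb => simp only [map_add, ha, hb]
    | single x m =>
      rw [indRep_single, Finsupp.mapRange.linearMap_apply, Finsupp.mapRange.linearMap_apply,
        Finsupp.mapRange_single, Finsupp.mapRange_single, indRep_single]
      congr 1
      show f (hAct M (eta φ q x) m) = hAct N (eta φ q x) (f m)
      rw [hAct_apply, hAct_apply, map_smul])

private theorem IndA_apply (hφ : Injective φ) (f : M →ₗ[MonoidAlgebra ℤ H] N)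
    (z : (indRep φ hφ M).asModule) :
    (indRep φ hφ N).asModuleEquiv (indMap φ hφ f z) =
      Finsupp.mapRange.linearMap f.toAddMonoidHom.toIntLinearMap
        ((indRep φ hφ M).asModuleEquiv z) := by
  unfold indMap
  exact toLin_apply _ _ _ _ z

private theorem IndA_coeff (hφ : Injective φ) (f : M →ₗ[MonoidAlgebra ℤ H] N)
    (z : (indRep φ hφ M).asModule) (x : Q ⧸ φ.range) :
    (indRep φ hφ N).asModuleEquiv (indMap φ hφ f z) x = f ((indRep φ hφ M).asModuleEquiv z x) := by
  rw [IndA_apply]
  rfl

theorem indMap_surjective (hφ : Injective φ) (f : M →ₗ[MonoidAlgebra ℤ H] N)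
    (hf : Surjective f) : Surjective (indMap φ hφ f) := by
  intro y
  have h1 : Surjective (Finsupp.mapRange.linearMap (α := Q ⧸ φ.range)
      f.toAddMonoidHom.toIntLinearMap) := by
    have h2 := Finsupp.mapRange_surjective (α := Q ⧸ φ.range) f (map_zero f) hf
    intro z
    obtain ⟨w, hw⟩ := h2 z
    exact ⟨w, hw⟩
  obtain ⟨z, hz⟩ := h1 ((indRep φ hφ N).asModuleEquiv y)
  refine ⟨(indRep φ hφ M).asModuleEquiv.symm z, ?_⟩
  apply (indRep φ hφ N).asModuleEquiv.injective
  rw [IndA_apply, LinearEquiv.apply_symm_apply, hz]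

theorem indMap_comp (hφ : Injective φ) {P : Type} [AddCommGroup P] [Module (MonoidAlgebra ℤ H) P]
    (f : M →ₗ[MonoidAlgebra ℤ H] N) (g : N →ₗ[MonoidAlgebra ℤ H] P) :
    indMap φ hφ (g.comp f) = (indMap φ hφ g).comp (indMap φ hφ f) := by
  apply LinearMap.ext
  intro z
  apply (indRep φ hφ P).asModuleEquiv.injective
  apply Finsupp.ext
  intro x
  rw [IndA_coeff, LinearMap.comp_apply, LinearMap.comp_apply, IndA_coeff, IndA_coeff]

theorem indMap_id (hφ : Injective φ) :
    indMap φ hφ (LinearMap.id : M →ₗ[MonoidAlgebra ℤ H] M) = LinearMap.id := by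
  apply LinearMap.ext
  intro z
  apply (indRep φ hφ M).asModuleEquiv.injective
  apply Finsupp.ext
  intro x
  rw [IndA_coeff, LinearMap.id_apply, LinearMap.id_apply]

/-- The kernel of the induced map is induced from the kernel. -/
theorem indMap_ker (hφ : Injective φ) (f : M →ₗ[MonoidAlgebra ℤ H] N) :
    Nonempty (LinearMap.ker (indMap φ hφ f) ≃ₗ[MonoidAlgebra ℤ Q]
      (indRep φ hφ (LinearMap.ker f)).asModule) := by
  let g := indMap φ hφ (LinearMap.ker f).subtype
  have hinj : Injective g := by
    intro y z hyz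
    apply (indRep φ hφ (LinearMap.ker f)).asModuleEquiv.injective
    apply Finsupp.ext
    intro x
    apply Subtype.ext
    have h1 := IndA_coeff φ hφ (LinearMap.ker f).subtype y x
    have h2 := IndA_coeff φ hφ (LinearMap.ker f).subtype z x
    have h3 : indMap φ hφ (LinearMap.ker f).subtype y = indMap φ hφ (LinearMap.ker f).subtype z :=
      hyz
    rw [h3, h2] at h1
    exact h1.symm
  have hrange : LinearMap.range g = LinearMap.ker (indMap φ hφ f) := by
    apply le_antisymm
    · rintro _ ⟨y, rfl⟩
      rw [LinearMap.mem_ker]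
      apply (indRep φ hφ N).asModuleEquiv.injective
      apply Finsupp.ext
      intro x
      rw [IndA_coeff, IndA_coeff, map_zero, Finsupp.zero_apply]
      exact LinearMap.mem_ker.1 ((indRep φ hφ (LinearMap.ker f)).asModuleEquiv y x).2
    · intro z hz
      rw [LinearMap.mem_ker] at hz
      have hz' : ∀ x, (indRep φ hφ M).asModuleEquiv z x ∈ LinearMap.ker f := by
        intro x
        rw [LinearMap.mem_ker, ← IndA_coeff φ hφ f z x, hz, map_zero, Finsupp.zero_apply]
      let w : (Q ⧸ φ.range) →₀ LinearMap.ker f :=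
        { support := ((indRep φ hφ M).asModuleEquiv z).support
          toFun := fun x => ⟨(indRep φ hφ M).asModuleEquiv z x, hz' x⟩
          mem_support_toFun := by
            intro x
            rw [Finsupp.mem_support_iff, ne_eq, ne_eq, Submodule.mk_eq_zero] }
      refine ⟨(indRep φ hφ (LinearMap.ker f)).asModuleEquiv.symm w, ?_⟩
      apply (indRep φ hφ M).asModuleEquiv.injective
      apply Finsupp.ext
      intro x
      rw [IndA_coeff, LinearEquiv.apply_symm_apply]
      rfl
  exact ⟨((LinearEquiv.ofInjective g hinj).trans (LinearEquiv.ofEq _ _ hrange)).symm⟩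

end Pool.Agent.H16.BV
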