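import Mathlib
import Pool.Agent.H16.BW.IndA

/-!
If `φ : H → Q` is injective and `H` is of type FP, then the permutation module of `Q / φ(H)` has a
finite resolution.

PROOF. `indRep φ hφ (Fin k → MonoidAlgebra ℤ H)` is finitely generated and free over
`MonoidAlgebra ℤ Q`, with basis `single (coset of 1) e_i` up to units: the map
`(Fin k →₀ ℤ[Q]) → indRep`, `e_i ↦ single x₀ e_i` with `x₀ = ↑(1 : Q)` is bijective, since
`q • (single x₀ e_i) = single (q • x₀) (η(q, x₀) e_i)` and `q ↦ (q • x₀, η(q, x₀))` is a bijection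
`Q → (Q / φ(H)) × H` (inverse `(x, h) ↦ out x * φ h * (out x₀)⁻¹`). Another way: this module is the
permutation module of the free `Q`-set `(Q / φ(H)) × H × Fin k` with the action
`q (x, h, i) = (q x, η(q,x) h, i)` (one orbit for each `i`), and `perm_free` applies; the
equivalence of `(Q/φ(H)) →₀ (Fin k → ℤ[H])` with finitely supported functions on this set is
`Finsupp.finsuppProdLEquiv` and so on.
A finitely generated projective module `P` is a retract of `Fin k → ℤ[H]`, so by `indMap_comp`,
`indMap_id` the module induced from `P` is a retract of the one above: finite and projective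
(`Module.Projective.of_split`, `Module.Finite.of_surjective`). Then induction on `n` with
`indMap_surjective`, `indMap_ker`. Finally for the trivial module, `indRep φ hφ ℤ` is `permRep`
(`hAct` is the identity).
-/

set_option autoImplicit false

namespace Pool.Agent.H16.BV

open Function

variable {H Q : Type} [Group H] [Group Q] (φ : H →* Q)

/-- The free set of the free module. -/
private abbrev YY (k : ℕ) : Type := (Q ⧸ φ.range) × (Fin k × H)

@[reducible] private noncomputable def yAct (hφ : Injective φ) (k : ℕ) : MulAction Q (YY φ k) where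
  smul q y := (q • y.1, (y.2.1, eta φ q y.1 * y.2.2))
  one_smul y := by
    show ((1 : Q) • y.1, (y.2.1, eta φ 1 y.1 * y.2.2)) = y
    rw [one_smul, eta_one φ hφ, one_mul]
  mul_smul a b y := by
    show ((a * b) • y.1, (y.2.1, eta φ (a * b) y.1 * y.2.2)) =
      (a • b • y.1, (y.2.1, eta φ a (b • y.1) * (eta φ b y.1 * y.2.2)))
    rw [mul_smul, eta_mul φ hφ, mul_assoc]

private theorem mr_single {X M N : Type} [AddCommGroup M] [AddCommGroup N] (e : M ≃ₗ[ℤ] N) (x : X)
    (m : M) : Finsupp.mapRange.linearEquiv (α := X) e (Finsupp.single x m) =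
      Finsupp.single x (e m) :=
  Finsupp.mapRange_single (hf := map_zero e)

private noncomputable def yEquiv (k : ℕ) :
    ((Q ⧸ φ.range) →₀ (Fin k →₀ MonoidAlgebra ℤ H)) ≃ₗ[ℤ] (YY φ k →₀ ℤ) :=
  (Finsupp.mapRange.linearEquiv ((Finsupp.mapRange.linearEquiv
    (MonoidAlgebra.coeffLinearEquiv ℤ)).trans
      (Finsupp.curryLinearEquiv (M := ℤ) (α := Fin k) (β := H) ℤ).symm)).trans
    (Finsupp.curryLinearEquiv (M := ℤ) (α := Q ⧸ φ.range) (β := Fin k × H) ℤ).symm

private theorem yEquiv_single (k : ℕ) (x : Q ⧸ φ.range) (i : Fin k) (h : H) (a : ℤ) :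
    yEquiv φ k (Finsupp.single x (Finsupp.single i (MonoidAlgebra.single h a))) =
      Finsupp.single ((x, (i, h)) : YY φ k) a := by
  unfold yEquiv
  rw [LinearEquiv.trans_apply, mr_single, LinearEquiv.trans_apply, mr_single]
  simp

private theorem free_ind (hφ : Injective φ) (k : ℕ) :
    Module.Finite (MonoidAlgebra ℤ Q) (indRep φ hφ (Fin k →₀ MonoidAlgebra ℤ H)).asModule ∧
      Module.Projective (MonoidAlgebra ℤ Q)
        (indRep φ hφ (Fin k →₀ MonoidAlgebra ℤ H)).asModule := by
  let iY : MulAction Q (YY φ k) := yAct φ hφ k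
  have hsm : ∀ (q : Q) (x : Q ⧸ φ.range) (i : Fin k) (h : H),
      q • ((x, (i, h)) : YY φ k) = ((q • x, (i, eta φ q x * h)) : YY φ k) := fun _ _ _ _ => rfl
  have hP := perm_free Q (YY φ k) (by
    rintro q ⟨x, i, h⟩ hq
    rw [hsm] at hq
    have h1 : q • x = x := congrArg Prod.fst hq
    have h2 : eta φ q x * h = h := congrArg (fun y => y.2.2) hq
    have h3 := eta_spec φ q x
    rw [mul_eq_right.1 h2, map_one, mul_one, h1] at h3
    exact mul_eq_right.1 h3.symm) (by
    refine ⟨Set.range (fun i : Fin k => (((1 : Q) : Q ⧸ φ.range), (i, (1 : H)))),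
      Set.finite_range _, ?_⟩
    rintro ⟨x, i, h⟩
    set x0 : Q ⧸ φ.range := ((1 : Q) : Q ⧸ φ.range) with hx0
    refine ⟨Quotient.out x0 * φ h⁻¹ * (Quotient.out x)⁻¹, i, ?_⟩
    show (x0, (i, (1 : H))) =
      (((Quotient.out x0 * φ h⁻¹ * (Quotient.out x)⁻¹) • x, (i, eta φ _ x * h)) : YY φ k)
    have h1 : (Quotient.out x0 * φ h⁻¹ * (Quotient.out x)⁻¹) • x = x0 := by
      have e1 : x = ((Quotient.out x : Q) : Q ⧸ φ.range) := (QuotientGroup.out_eq' x).symm
      have e2 : (Quotient.out x0 * φ h⁻¹ * (Quotient.out x)⁻¹) •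
          ((Quotient.out x : Q) : Q ⧸ φ.range) =
          ((Quotient.out x0 * φ h⁻¹ * (Quotient.out x)⁻¹ * Quotient.out x : Q) : Q ⧸ φ.range) := rfl
      have e3 : (Quotient.out x0 * φ h⁻¹ * (Quotient.out x)⁻¹) • x =
          ((Quotient.out x0 * φ h⁻¹ * (Quotient.out x)⁻¹ * Quotient.out x : Q) : Q ⧸ φ.range) := by
        rw [← e2, ← e1]
      rw [e3, inv_mul_cancel_right]
      have e4 : ((Quotient.out x0 : Q) : Q ⧸ φ.range) = x0 := QuotientGroup.out_eq' x0
      rw [← e4]
      rw [QuotientGroup.eq]
      refine ⟨h, ?_⟩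
      rw [e4, map_inv]
      group
    have h2 : eta φ (Quotient.out x0 * φ h⁻¹ * (Quotient.out x)⁻¹) x = h⁻¹ := by
      apply hφ
      have h3 := eta_spec φ (Quotient.out x0 * φ h⁻¹ * (Quotient.out x)⁻¹) x
      rw [h1, inv_mul_cancel_right] at h3
      exact mul_left_cancel h3
    rw [h1, h2, inv_mul_cancel])
  have heq : ∀ q z, yEquiv φ k (indRep φ hφ (Fin k →₀ MonoidAlgebra ℤ H) q z) =
      permRep Q (YY φ k) q (yEquiv φ k z) := by
    intro q z
    induction z using Finsupp.induction_linear with
    | zero => simp only [map_zero]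
    | add a b ha hb => simp only [map_add, ha, hb]
    | single x m =>
      rw [indRep_single]
      induction m using Finsupp.induction_linear with
      | zero => simp only [map_zero, Finsupp.single_zero]
      | add a b ha hb => rw [map_add, Finsupp.single_add, Finsupp.single_add, map_add, map_add, map_add, ha, hb]
      | single i r =>
        induction r using MonoidAlgebra.induction_linear with
        | zero => simp only [map_zero, Finsupp.single_zero]
        | add a b ha hb =>
          rw [Finsupp.single_add, map_add, Finsupp.single_add, Finsupp.single_add, map_add, map_add,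
            map_add, ha, hb]
        | single h a =>
          have e1 : hAct (Fin k →₀ MonoidAlgebra ℤ H) (eta φ q x)
              (Finsupp.single i (MonoidAlgebra.single h a)) =
              Finsupp.single i (MonoidAlgebra.single (eta φ q x * h) a) := by
            rw [hAct_apply, Finsupp.smul_single, smul_eq_mul, MonoidAlgebra.single_mul_single,
              one_mul]
          rw [e1, yEquiv_single, yEquiv_single, permRep_single, hsm]
  let L := toLin (indRep φ hφ (Fin k →₀ MonoidAlgebra ℤ H)) (permRep Q (YY φ k))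
    (yEquiv φ k).toLinearMap heq
  have hL : Bijective L := by
    have h1 : (L : _ → _) = (permRep Q (YY φ k)).asModuleEquiv.symm ∘ (yEquiv φ k) ∘
        (indRep φ hφ (Fin k →₀ MonoidAlgebra ℤ H)).asModuleEquiv := rfl
    rw [h1]
    exact (permRep Q (YY φ k)).asModuleEquiv.symm.bijective.comp
      ((yEquiv φ k).bijective.comp (LinearEquiv.bijective _))
  let LE := (LinearEquiv.ofBijective L hL).symm
  obtain ⟨h1, h2⟩ := hP
  exact ⟨Module.Finite.equiv LE, Module.Projective.of_equiv LE⟩

private theorem proj_ind (hφ : Injective φ) (P : Type) [AddCommGroup P]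
    [Module (MonoidAlgebra ℤ H) P] [hF : Module.Finite (MonoidAlgebra ℤ H) P]
    [hP : Module.Projective (MonoidAlgebra ℤ H) P] :
    Module.Finite (MonoidAlgebra ℤ Q) (indRep φ hφ P).asModule ∧
      Module.Projective (MonoidAlgebra ℤ Q) (indRep φ hφ P).asModule := by
  obtain ⟨k, f0, hf0⟩ := Module.Finite.exists_fin' (MonoidAlgebra ℤ H) P
  let f : (Fin k →₀ MonoidAlgebra ℤ H) →ₗ[MonoidAlgebra ℤ H] P :=
    f0.comp (Finsupp.linearEquivFunOnFinite (MonoidAlgebra ℤ H) (MonoidAlgebra ℤ H)
      (Fin k)).toLinearMap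
  have hf : Surjective f := hf0.comp (LinearEquiv.surjective _)
  obtain ⟨s, hs⟩ := Module.projective_lifting_property f LinearMap.id hf
  obtain ⟨h1, h2⟩ := free_ind φ hφ k
  refine ⟨Module.Finite.of_surjective _ (indMap_surjective φ hφ f hf), ?_⟩
  refine Module.Projective.of_split (indMap φ hφ s) (indMap φ hφ f) ?_
  rw [← indMap_comp, hs, indMap_id]

theorem HasRes.ind (hφ : Injective φ) (n : ℕ) (M : Type) [AddCommGroup M]
    [Module (MonoidAlgebra ℤ H) M] (h : HasRes (MonoidAlgebra ℤ H) n M) :
    HasRes (MonoidAlgebra ℤ Q) n (indRep φ hφ M).asModule := by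
  induction n generalizing M with
  | zero =>
    obtain ⟨h1, h2⟩ := h
    exact proj_ind φ hφ M
  | succ n ih =>
    obtain ⟨P, iP, mP, f, hf, hfin, hproj, hk⟩ := h
    obtain ⟨h1, h2⟩ := proj_ind φ hφ P
    obtain ⟨e⟩ := indMap_ker φ hφ f
    exact ⟨(indRep φ hφ P).asModule, inferInstance, inferInstance, indMap φ hφ f,
      indMap_surjective φ hφ f hf, h1, h2, HasRes.equiv n e.symm (ih _ hk)⟩

theorem hasRes_perm (hφ : Injective φ) (h : FP H) :
    ∃ n, HasRes (MonoidAlgebra ℤ Q) n (permRep Q (Q ⧸ φ.range)).asModule := by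
  obtain ⟨n, hn⟩ := h
  refine ⟨n, ?_⟩
  have h1 := HasRes.ind φ hφ n _ hn
  let T := Representation.trivial ℤ H ℤ
  let e : ((Q ⧸ φ.range) →₀ T.asModule) ≃ₗ[ℤ] ((Q ⧸ φ.range) →₀ ℤ) :=
    Finsupp.mapRange.linearEquiv T.asModuleEquiv
  have he : ∀ q z, e (indRep φ hφ T.asModule q z) = permRep Q (Q ⧸ φ.range) q (e z) := by
    intro q z
    induction z using Finsupp.induction_linear with
    | zero => simp only [map_zero]
    | add a b ha hb => simp only [map_add, ha, hb]
    | single x m =>
      rw [indRep_single]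
      have e1 : hAct T.asModule (eta φ q x) m = m := by
        rw [hAct_apply]
        apply T.asModuleEquiv.injective
        rw [Representation.asModuleEquiv_map_smul, Representation.asAlgebraHom_single]
        simp [T]
      rw [e1]
      have m1 : ∀ y : Q ⧸ φ.range, e (Finsupp.single y m) =
          Finsupp.single y (T.asModuleEquiv m) := fun y => Finsupp.mapRange_single (hf := map_zero _)
      rw [m1, m1, permRep_single]
  let L := toLin (indRep φ hφ T.asModule) (permRep Q (Q ⧸ φ.range)) e.toLinearMap he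
  have hL : Bijective L := by
    have h1 : (L : _ → _) = (permRep Q (Q ⧸ φ.range)).asModuleEquiv.symm ∘ e ∘
        (indRep φ hφ T.asModule).asModuleEquiv := rfl
    rw [h1]
    exact (permRep Q (Q ⧸ φ.range)).asModuleEquiv.symm.bijective.comp
      (e.bijective.comp (LinearEquiv.bijective _))
  exact HasRes.equiv n (LinearEquiv.ofBijective L hL) h1

end Pool.Agent.H16.BV
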