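import Mathlib
import Pool.Agent.H16.BV.Complex

/-!
The chain complex of the tree of an amalgamated product `Q` of `A` and `B` over `Y` is exact.

Here `Q` is any group with homomorphisms `k₁ : A → Q`, `k₂ : B → Q` with `k₁ ∘ i = k₂ ∘ j` and the
universal property for all groups `M`. No injectivity is needed: the edges are the cosets of
`(k₁ ∘ i).range`.

PROOFS. `tree_surj`: clear. `tree_exact`: the image `I` of `dT` in `C₀ = ℤ[Q/A] × ℤ[Q/B]`: in
`C₀ / I` the classes of `qA` and `qB` are equal for all `q`. So the class of `qA = q a A` equals the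
class of `q a B`, hence the class of `q B = q A`: the set of all `g` such that the classes of `q g A`
and `q A` are equal for all `q` is a subgroup that contains the ranges of `k₁` and `k₂`, and
therefore (`hgen`) is everything. So `C₀ / I` is generated by the class of `A`, and an element of
`C₀` with augmentation 0 is in `I`.
`tree_inj`: let `E = ((Q ⧸ (k₁.comp i).range) →₀ ℤ)`, with the action `permRep` of `Q`, and let
`e = single 1 1` (the coset of 1). Let `E ⋊ Q` be the semidirect product
(`SemidirectProduct (Multiplicative E) Q _`), or use affine maps of `E`: the group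
`Equiv.Perm E`; `A → Perm E`, `a ↦ (z ↦ a z)`, `B → Perm E`, `b ↦ (z ↦ b z + b e - e)`, which agree
on `Y` as `y e = e`. By the universal property there is `F : Q → Perm E`; put `δ q = F q 0`. Then
`F q z = q z + δ q` (both sides are homomorphisms; or induction by `hgen`), so
`δ (q q') = δ q + q δ q'`, `δ (k₁ a) = 0`, `δ (k₂ b) = b e - e`. Therefore
`r₁ (q A) = δ q`, `r₂ (q B) = δ q - q e` are well defined linear maps, and
`r (x, y) = r₁ x - r₂ y` satisfies `r (dT z) = z`, where `dT (q Y) = (q A, q B)`: indeed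
`δ q - (δ q - q e) = q e`.
-/

set_option autoImplicit false

namespace Pool.Agent.H16.BV

open Function

variable {Y A B Q : Type} [Group Y] [Group A] [Group B] [Group Q] (i : Y →* A) (j : Y →* B)
  (k₁ : A →* Q) (k₂ : B →* Q)

/-- The map of cosets for an inclusion of subgroups. -/
noncomputable def cosMap {S T : Subgroup Q} (h : S ≤ T) : ((Q ⧸ S) →₀ ℤ) →ₗ[ℤ] ((Q ⧸ T) →₀ ℤ) :=
  Finsupp.lmapDomain ℤ ℤ (Quotient.map' id fun a b hab => by
    rw [QuotientGroup.leftRel_apply] at hab ⊢
    exact h hab)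

theorem cosMap_single {S T : Subgroup Q} (h : S ≤ T) (q : Q) (a : ℤ) :
    cosMap h (Finsupp.single (q : Q ⧸ S) a) = Finsupp.single (q : Q ⧸ T) a := by
  unfold cosMap
  rw [Finsupp.lmapDomain_apply, Finsupp.mapDomain_single]
  rfl

theorem cosMap_equiv {S T : Subgroup Q} (h : S ≤ T) (q : Q) (z : (Q ⧸ S) →₀ ℤ) :
    cosMap h (permRep Q (Q ⧸ S) q z) = permRep Q (Q ⧸ T) q (cosMap h z) := by
  induction z using Finsupp.induction_linear with
  | zero => simp only [map_zero]
  | add x y hx hy => simp only [map_add, hx, hy]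
  | single x a =>
    induction x using QuotientGroup.induction_on with
    | H g =>
      rw [permRep_single, MulAction.Quotient.smul_mk, smul_eq_mul]
      change cosMap h (Finsupp.single ((q * g : Q) : Q ⧸ S) a) = _
      rw [cosMap_single, cosMap_single, permRep_single]
      rfl

theorem range_le₁ : (k₁.comp i).range ≤ k₁.range := by
  rintro _ ⟨y, rfl⟩
  exact ⟨i y, rfl⟩

theorem range_le₂ (hk : k₁.comp i = k₂.comp j) : (k₁.comp i).range ≤ k₂.range := by
  rw [hk]
  rintro _ ⟨y, rfl⟩
  exact ⟨j y, rfl⟩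

/-- The boundary map of the tree. -/
noncomputable def dT (hk : k₁.comp i = k₂.comp j) :
    ((Q ⧸ (k₁.comp i).range) →₀ ℤ) →ₗ[ℤ] ((Q ⧸ k₁.range) →₀ ℤ) × ((Q ⧸ k₂.range) →₀ ℤ) :=
  (cosMap (range_le₁ i k₁)).prod (cosMap (range_le₂ i j k₁ k₂ hk))

/-- The augmentation: the difference of the sums of the coefficients. -/
noncomputable def augT (k₁ : A →* Q) (k₂ : B →* Q) :
    ((Q ⧸ k₁.range) →₀ ℤ) × ((Q ⧸ k₂.range) →₀ ℤ) →ₗ[ℤ] ℤ :=
  (Finsupp.linearCombination ℤ fun _ => (1 : ℤ)).comp (LinearMap.fst ℤ _ _) -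
    (Finsupp.linearCombination ℤ fun _ => (1 : ℤ)).comp (LinearMap.snd ℤ _ _)

private theorem aug_mk (x : (Q ⧸ k₁.range) →₀ ℤ) (y : (Q ⧸ k₂.range) →₀ ℤ) :
    augT k₁ k₂ (x, y) = Finsupp.linearCombination ℤ (fun _ => (1 : ℤ)) x -
      Finsupp.linearCombination ℤ (fun _ => (1 : ℤ)) y := rfl

private theorem dT_single (hk : k₁.comp i = k₂.comp j) (q : Q) (a : ℤ) :
    dT i j k₁ k₂ hk (Finsupp.single (q : Q ⧸ (k₁.comp i).range) a) =
      (Finsupp.single (q : Q ⧸ k₁.range) a, Finsupp.single (q : Q ⧸ k₂.range) a) := by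
  change (cosMap _ (Finsupp.single (q : Q ⧸ (k₁.comp i).range) a),
    cosMap _ (Finsupp.single (q : Q ⧸ (k₁.comp i).range) a)) = _
  rw [cosMap_single, cosMap_single]

theorem tree_surj : Surjective (augT k₁ k₂) := by
  intro n
  refine ⟨(Finsupp.single ((1 : Q) : Q ⧸ k₁.range) n, 0), ?_⟩
  rw [aug_mk, Finsupp.linearCombination_single, map_zero, sub_zero, smul_eq_mul, mul_one]

theorem tree_exact (hk : k₁.comp i = k₂.comp j)
    (hgen : k₁.range ⊔ k₂.range = ⊤) (z : ((Q ⧸ k₁.range) →₀ ℤ) × ((Q ⧸ k₂.range) →₀ ℤ)) :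
    augT k₁ k₂ z = 0 ↔ ∃ y, dT i j k₁ k₂ hk y = z := by
  constructor
  · intro hz
    let I := LinearMap.range (dT i j k₁ k₂ hk)
    let X : Q → (((Q ⧸ k₁.range) →₀ ℤ) × ((Q ⧸ k₂.range) →₀ ℤ)) ⧸ I := fun q =>
      I.mkQ (Finsupp.single (q : Q ⧸ k₁.range) 1, 0)
    have hX : ∀ q, X q = - I.mkQ (0, Finsupp.single (q : Q ⧸ k₂.range) 1) := by
      intro q
      have h1 : I.mkQ (dT i j k₁ k₂ hk (Finsupp.single (q : Q ⧸ (k₁.comp i).range) 1)) = 0 := by
        rw [Submodule.mkQ_apply, Submodule.Quotient.mk_eq_zero]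
        exact ⟨_, rfl⟩
      rw [dT_single] at h1
      have h2 : ((Finsupp.single (q : Q ⧸ k₁.range) (1 : ℤ), Finsupp.single (q : Q ⧸ k₂.range) (1 : ℤ)) :
          ((Q ⧸ k₁.range) →₀ ℤ) × ((Q ⧸ k₂.range) →₀ ℤ)) =
          (Finsupp.single (q : Q ⧸ k₁.range) 1, 0) + (0, Finsupp.single (q : Q ⧸ k₂.range) 1) := by
        rw [Prod.mk_add_mk, add_zero, zero_add]
      rw [h2, map_add] at h1
      exact eq_neg_of_add_eq_zero_left h1
    let H : Subgroup Q :=
      { carrier := {g | ∀ q, X (q * g) = X q}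
        mul_mem' := by
          intro a b ha hb q
          rw [← mul_assoc, hb, ha]
        one_mem' := by
          intro q
          rw [mul_one]
        inv_mem' := by
          intro a ha q
          have h1 := ha (q * a⁻¹)
          rw [inv_mul_cancel_right] at h1
          exact h1.symm }
    have hH : (⊤ : Subgroup Q) ≤ H := by
      rw [← hgen, sup_le_iff]
      constructor
      · intro g hg q
        have h1 : ((q * g : Q) : Q ⧸ k₁.range) = (q : Q ⧸ k₁.range) :=
          QuotientGroup.mk_mul_of_mem q hg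
        change I.mkQ (Finsupp.single ((q * g : Q) : Q ⧸ k₁.range) 1, 0) =
          I.mkQ (Finsupp.single (q : Q ⧸ k₁.range) 1, 0)
        rw [h1]
      · intro g hg q
        have h1 : ((q * g : Q) : Q ⧸ k₂.range) = (q : Q ⧸ k₂.range) :=
          QuotientGroup.mk_mul_of_mem q hg
        rw [hX, hX, h1]
    have hX1 : ∀ q, X q = X 1 := by
      intro q
      have := hH (Subgroup.mem_top q) 1
      rwa [one_mul] at this
    have hL : ∀ x : (Q ⧸ k₁.range) →₀ ℤ, I.mkQ (x, 0) =
        Finsupp.linearCombination ℤ (fun _ => (1 : ℤ)) x • X 1 := by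
      intro x
      induction x using Finsupp.induction_linear with
      | zero =>
        rw [map_zero, zero_smul]
        exact map_zero I.mkQ
      | add x y hx hy =>
        have h1 : ((x + y, 0) : ((Q ⧸ k₁.range) →₀ ℤ) × ((Q ⧸ k₂.range) →₀ ℤ)) =
            (x, 0) + (y, 0) := by
          rw [Prod.mk_add_mk, add_zero]
        rw [h1, map_add, map_add, add_smul, hx, hy]
      | single x a =>
        induction x using QuotientGroup.induction_on with
        | H g =>
          have h1 : ((Finsupp.single (g : Q ⧸ k₁.range) a, 0) :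
              ((Q ⧸ k₁.range) →₀ ℤ) × ((Q ⧸ k₂.range) →₀ ℤ)) =
              a • (Finsupp.single (g : Q ⧸ k₁.range) 1, 0) := by
            rw [Prod.smul_mk, smul_zero, Finsupp.smul_single, smul_eq_mul, mul_one]
          rw [h1, map_smul, Finsupp.linearCombination_single, smul_eq_mul, mul_one, ← hX1 g]
    have hR : ∀ x : (Q ⧸ k₂.range) →₀ ℤ, I.mkQ (0, x) =
        -(Finsupp.linearCombination ℤ (fun _ => (1 : ℤ)) x • X 1) := by
      intro x
      induction x using Finsupp.induction_linear with
      | zero =>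
        rw [map_zero, zero_smul, neg_zero]
        exact map_zero I.mkQ
      | add x y hx hy =>
        have h1 : ((0, x + y) : ((Q ⧸ k₁.range) →₀ ℤ) × ((Q ⧸ k₂.range) →₀ ℤ)) =
            (0, x) + (0, y) := by
          rw [Prod.mk_add_mk, add_zero]
        rw [h1, map_add, map_add, add_smul, hx, hy, neg_add]
      | single x a =>
        induction x using QuotientGroup.induction_on with
        | H g =>
          have h1 : ((0, Finsupp.single (g : Q ⧸ k₂.range) a) :
              ((Q ⧸ k₁.range) →₀ ℤ) × ((Q ⧸ k₂.range) →₀ ℤ)) =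
              a • (0, Finsupp.single (g : Q ⧸ k₂.range) 1) := by
            rw [Prod.smul_mk, smul_zero, Finsupp.smul_single, smul_eq_mul, mul_one]
          rw [h1, map_smul, Finsupp.linearCombination_single, smul_eq_mul, mul_one, ← hX1 g, hX g,
            smul_neg, neg_neg]
    have h0 : I.mkQ z = 0 := by
      have h1 : z = (z.1, 0) + (0, z.2) := by
        rw [Prod.mk_add_mk, add_zero, zero_add]
      have h2 : augT k₁ k₂ z = Finsupp.linearCombination ℤ (fun _ => (1 : ℤ)) z.1 -
        Finsupp.linearCombination ℤ (fun _ => (1 : ℤ)) z.2 := rfl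
      rw [h1, map_add, hL, hR, ← sub_eq_add_neg, ← sub_smul, ← h2, hz, zero_smul]
    rw [Submodule.mkQ_apply, Submodule.Quotient.mk_eq_zero] at h0
    exact h0
  · rintro ⟨y, rfl⟩
    induction y using Finsupp.induction_linear with
    | zero => rw [map_zero, map_zero]
    | add x y hx hy => rw [map_add, map_add, hx, hy, add_zero]
    | single x a =>
      induction x using QuotientGroup.induction_on with
      | H g =>
        rw [dT_single, aug_mk, Finsupp.linearCombination_single, Finsupp.linearCombination_single,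
          sub_self]

theorem tree_inj (hk : k₁.comp i = k₂.comp j) (hgen : k₁.range ⊔ k₂.range = ⊤)
    (huniv : ∀ (M : Type) [Group M] (a : A →* M) (b : B →* M), a.comp i = b.comp j →
      ∃ f : Q →* M, f.comp k₁ = a ∧ f.comp k₂ = b) : Injective (dT i j k₁ k₂ hk) := by
  let E := (Q ⧸ (k₁.comp i).range) →₀ ℤ
  let ρ : Q → E →ₗ[ℤ] E := fun q => permRep Q (Q ⧸ (k₁.comp i).range) q
  have hρ1 : ∀ z : E, ρ 1 z = z := fun z => by
    change permRep Q (Q ⧸ (k₁.comp i).range) 1 z = z
    rw [map_one]
    rfl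
  have hρm : ∀ (q q' : Q) (z : E), ρ (q * q') z = ρ q (ρ q' z) := fun q q' z => by
    change permRep Q (Q ⧸ (k₁.comp i).range) (q * q') z = _
    rw [map_mul]
    rfl
  let e : E := Finsupp.single ((1 : Q) : Q ⧸ (k₁.comp i).range) 1
  have hρe : ∀ q : Q, ρ q e = Finsupp.single (q : Q ⧸ (k₁.comp i).range) 1 := by
    intro q
    change permRep Q (Q ⧸ (k₁.comp i).range) q
      (Finsupp.single ((1 : Q) : Q ⧸ (k₁.comp i).range) 1) = _
    rw [permRep_single, MulAction.Quotient.smul_mk, smul_eq_mul, mul_one]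
  -- the action by permutations
  let P : Q →* Equiv.Perm E :=
    { toFun := fun q => ⟨ρ q, ρ q⁻¹, fun z => by rw [← hρm, inv_mul_cancel, hρ1],
        fun z => by rw [← hρm, mul_inv_cancel, hρ1]⟩
      map_one' := by
        ext1 z
        exact hρ1 z
      map_mul' := fun q q' => by
        ext1 z
        exact hρm q q' z }
  let T : Equiv.Perm E := Equiv.addRight e
  let c : Equiv.Perm E →* Equiv.Perm E :=
    { toFun := fun f => T⁻¹ * f * T
      map_one' := by group
      map_mul' := fun f g => by group }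
  have hcP : ∀ (q : Q) (z : E), c (P q) z = ρ q z + ρ q e - e := by
    intro q z
    change (ρ q (z + e)) + -e = _
    rw [map_add, sub_eq_add_neg]
  obtain ⟨F, hF1, hF2⟩ := huniv (Equiv.Perm E) (P.comp k₁) ((c.comp P).comp k₂) (by
    ext1 y
    ext1 z
    have h1 : k₁ (i y) = k₂ (j y) := DFunLike.congr_fun hk y
    change ρ (k₁ (i y)) z = c (P (k₂ (j y))) z
    rw [← h1, hcP]
    have h2 : ρ (k₁ (i y)) e = e := by
      rw [hρe]
      have h3 : ((k₁ (i y) : Q) : Q ⧸ (k₁.comp i).range) = ((1 : Q) : Q ⧸ (k₁.comp i).range) := by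
        rw [QuotientGroup.eq, mul_one]
        exact inv_mem ⟨y, rfl⟩
      rw [h3]
    rw [h2, add_sub_cancel_right])
  have hFa : ∀ (a : A) (z : E), F (k₁ a) z = ρ (k₁ a) z := fun a z => by
    have := DFunLike.congr_fun hF1 a
    change F (k₁ a) = P (k₁ a) at this
    rw [this]
    rfl
  have hFb : ∀ (b : B) (z : E), F (k₂ b) z = ρ (k₂ b) z + ρ (k₂ b) e - e := fun b z => by
    have := DFunLike.congr_fun hF2 b
    change F (k₂ b) = c (P (k₂ b)) at this
    rw [this, hcP]
  let H : Subgroup Q :=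
    { carrier := {q | ∀ z, F q z = ρ q z + F q 0}
      mul_mem' := by
        intro q q' hq hq' z
        rw [map_mul, Equiv.Perm.mul_apply, Equiv.Perm.mul_apply, hq (F q' z), hq' z,
          hq (F q' 0), map_add, hρm, add_assoc]
      one_mem' := by
        intro z
        rw [map_one, Equiv.Perm.one_apply, Equiv.Perm.one_apply, hρ1, add_zero]
      inv_mem' := by
        intro q hq z
        have h1 : ∀ w : E, F q⁻¹ w = ρ q⁻¹ (w - F q 0) := by
          intro w
          have h2 : F q (F q⁻¹ w) = w := by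
            rw [← Equiv.Perm.mul_apply, ← map_mul, mul_inv_cancel, map_one, Equiv.Perm.one_apply]
          have h3 := hq (F q⁻¹ w)
          rw [h2] at h3
          have h4 : w - F q 0 = ρ q (F q⁻¹ w) := by rw [sub_eq_iff_eq_add]; exact h3
          rw [h4, ← hρm, inv_mul_cancel, hρ1]
        rw [h1 z, h1 0, ← map_add]
        congr 1
        abel }
  have hH : (⊤ : Subgroup Q) ≤ H := by
    rw [← hgen, sup_le_iff]
    constructor
    · rintro _ ⟨a, rfl⟩ z
      rw [hFa, hFa, map_zero, add_zero]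
    · rintro _ ⟨b, rfl⟩ z
      rw [hFb, hFb, map_zero, zero_add, add_sub_assoc]
  let δ : Q → E := fun q => F q 0
  have hδ : ∀ q q', δ (q * q') = ρ q (δ q') + δ q := by
    intro q q'
    change F (q * q') 0 = _
    rw [map_mul, Equiv.Perm.mul_apply]
    exact hH (Subgroup.mem_top q) _
  have hδa : ∀ a : A, δ (k₁ a) = 0 := fun a => by
    change F (k₁ a) 0 = 0
    rw [hFa, map_zero]
  have hδb : ∀ b : B, δ (k₂ b) = ρ (k₂ b) e - e := fun b => by
    change F (k₂ b) 0 = _
    rw [hFb, map_zero, zero_add]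
  have hcoset : ∀ (S : Subgroup Q) (q q' : Q), QuotientGroup.leftRel S q q' →
      ∃ s ∈ S, q' = q * s := by
    intro S q q' h
    rw [QuotientGroup.leftRel_apply] at h
    exact ⟨_, h, by group⟩
  let v₁ : Q ⧸ k₁.range → E := fun x => Quotient.liftOn' x δ (by
    intro q q' h
    obtain ⟨_, ⟨a, rfl⟩, rfl⟩ := hcoset _ _ _ h
    rw [hδ, hδa, map_zero, zero_add])
  let v₂ : Q ⧸ k₂.range → E := fun x => Quotient.liftOn' x (fun q => δ q - ρ q e) (by
    intro q q' h
    obtain ⟨_, ⟨b, rfl⟩, rfl⟩ := hcoset _ _ _ h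
    rw [hδ, hδb, map_sub, hρm]
    abel)
  let r : ((Q ⧸ k₁.range) →₀ ℤ) × ((Q ⧸ k₂.range) →₀ ℤ) →ₗ[ℤ] E :=
    (Finsupp.linearCombination ℤ v₁).comp (LinearMap.fst ℤ _ _) -
      (Finsupp.linearCombination ℤ v₂).comp (LinearMap.snd ℤ _ _)
  have hr : ∀ z, r (dT i j k₁ k₂ hk z) = z := by
    intro z
    induction z using Finsupp.induction_linear with
    | zero => rw [map_zero, map_zero]
    | add x y hx hy => rw [map_add, map_add, hx, hy]
    | single x a =>
      induction x using QuotientGroup.induction_on with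
      | H g =>
        rw [dT_single]
        change Finsupp.linearCombination ℤ v₁ (Finsupp.single (g : Q ⧸ k₁.range) a) -
          Finsupp.linearCombination ℤ v₂ (Finsupp.single (g : Q ⧸ k₂.range) a) = _
        rw [Finsupp.linearCombination_single, Finsupp.linearCombination_single, ← smul_sub]
        change a • (δ g - (δ g - ρ g e)) = _
        rw [sub_sub_cancel, hρe, Finsupp.smul_single, smul_eq_mul, mul_one]
  intro x y hxy
  rw [← hr x, ← hr y, hxy]

end Pool.Agent.H16.BV
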