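import Mathlib
import Pool.Agent.H16.BW.Tree
import Pool.Agent.H16.BW.Ext
import Pool.Agent.H16.BW.IndB

/-!
Amalgamated products of groups of type FP are of type FP.

PROOF. The sequence `0 → ℤ[Q/Y] → ℤ[Q/A] × ℤ[Q/B] → ℤ → 0` of `ℤ[Q]`-modules is exact
(`tree_inj`, `tree_exact`, `tree_surj`; the maps are equivariant, `toLin`). By `hasRes_perm` for
`k₁.comp i`, `k₁`, `k₂` (injective) the first two modules have finite resolutions (`HasRes.prod`,
`HasRes.mono`, `HasRes.equiv` for the product of the two modules), so `HasRes.cok` applies.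
-/

set_option autoImplicit false

namespace Pool.Agent.H16.BV

open Function

/-- The sum of the coefficients is invariant. -/
private theorem sum_inv {Q X : Type} [Group Q] [MulAction Q X] (q : Q) (z : X →₀ ℤ) :
    Finsupp.linearCombination ℤ (fun _ : X => (1 : ℤ)) (permRep Q X q z) =
      (Representation.trivial ℤ Q ℤ) q (Finsupp.linearCombination ℤ (fun _ : X => (1 : ℤ)) z) := by
  rw [Representation.trivial_apply]
  induction z using Finsupp.induction_linear with
  | zero => simp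
  | add f g hf hg => rw [map_add, map_add, map_add, hf, hg]
  | single x a => rw [permRep_single, Finsupp.linearCombination_single,
      Finsupp.linearCombination_single]

theorem fp_amal {Y A B Q : Type} [Group Y] [Group A] [Group B] [Group Q] (i : Y →* A)
    (j : Y →* B) (k₁ : A →* Q) (k₂ : B →* Q) (hk : k₁.comp i = k₂.comp j)
    (hgen : k₁.range ⊔ k₂.range = ⊤)
    (huniv : ∀ (M : Type) [Group M] (a : A →* M) (b : B →* M), a.comp i = b.comp j →
      ∃ f : Q →* M, f.comp k₁ = a ∧ f.comp k₂ = b)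
    (hi : Injective i) (h₁ : Injective k₁) (h₂ : Injective k₂)
    (hY : FP Y) (hA : FP A) (hB : FP B) : FP Q := by
  obtain ⟨nY, rY⟩ := hasRes_perm (k₁.comp i) (h₁.comp hi) hY
  obtain ⟨nA, rA⟩ := hasRes_perm k₁ h₁ hA
  obtain ⟨nB, rB⟩ := hasRes_perm k₂ h₂ hB
  let f₁ : (permRep Q (Q ⧸ (k₁.comp i).range)).asModule →ₗ[MonoidAlgebra ℤ Q]
      (permRep Q (Q ⧸ k₁.range)).asModule :=
    toLin _ _ (cosMap (range_le₁ i k₁)) (cosMap_equiv (range_le₁ i k₁))
  let f₂ : (permRep Q (Q ⧸ (k₁.comp i).range)).asModule →ₗ[MonoidAlgebra ℤ Q]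
      (permRep Q (Q ⧸ k₂.range)).asModule :=
    toLin _ _ (cosMap (range_le₂ i j k₁ k₂ hk)) (cosMap_equiv (range_le₂ i j k₁ k₂ hk))
  let g₁ : (permRep Q (Q ⧸ k₁.range)).asModule →ₗ[MonoidAlgebra ℤ Q]
      (Representation.trivial ℤ Q ℤ).asModule :=
    toLin _ _ (Finsupp.linearCombination ℤ fun _ => (1 : ℤ)) sum_inv
  let g₂ : (permRep Q (Q ⧸ k₂.range)).asModule →ₗ[MonoidAlgebra ℤ Q]
      (Representation.trivial ℤ Q ℤ).asModule :=
    toLin _ _ (Finsupp.linearCombination ℤ fun _ => (1 : ℤ)) sum_inv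
  let f := f₁.prod f₂
  let g := g₁.comp (LinearMap.fst (MonoidAlgebra ℤ Q) _ _) -
    g₂.comp (LinearMap.snd (MonoidAlgebra ℤ Q) _ _)
  let eY := (permRep Q (Q ⧸ (k₁.comp i).range)).asModuleEquiv
  let eA := (permRep Q (Q ⧸ k₁.range)).asModuleEquiv
  let eB := (permRep Q (Q ⧸ k₂.range)).asModuleEquiv
  let eZ := (Representation.trivial ℤ Q ℤ).asModuleEquiv
  have hf : ∀ y, (eA (f y).1, eB (f y).2) = dT i j k₁ k₂ hk (eY y) := by
    intro y
    refine Prod.ext ?_ ?_
    · exact toLin_apply _ _ _ (cosMap_equiv (range_le₁ i k₁)) y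
    · exact toLin_apply _ _ _ (cosMap_equiv (range_le₂ i j k₁ k₂ hk)) y
  have hg : ∀ z, eZ (g z) = augT k₁ k₂ (eA z.1, eB z.2) := by
    intro z
    have h1 : eZ (g z) = eZ (g₁ z.1) - eZ (g₂ z.2) := by
      rw [← map_sub]
      rfl
    rw [h1]
    have h2 : eZ (g₁ z.1) = Finsupp.linearCombination ℤ (fun _ => (1 : ℤ)) (eA z.1) :=
      toLin_apply _ _ _ sum_inv _
    have h3 : eZ (g₂ z.2) = Finsupp.linearCombination ℤ (fun _ => (1 : ℤ)) (eB z.2) :=
      toLin_apply _ _ _ sum_inv _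
    rw [h2, h3]
    rfl
  have hfi : Injective f := by
    intro x y h
    apply eY.injective
    apply tree_inj i j k₁ k₂ hk hgen huniv
    rw [← hf, ← hf, h]
  have hgs : Surjective g := by
    intro w
    obtain ⟨⟨a, b⟩, hz⟩ := tree_surj k₁ k₂ (eZ w)
    refine ⟨(eA.symm a, eB.symm b), ?_⟩
    apply eZ.injective
    rw [hg]
    dsimp only
    rw [LinearEquiv.apply_symm_apply, LinearEquiv.apply_symm_apply, hz]
  have hex : ∀ z, g z = 0 ↔ ∃ y, f y = z := by
    intro z
    have h1 : g z = 0 ↔ augT k₁ k₂ (eA z.1, eB z.2) = 0 := by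
      rw [← hg, eZ.map_eq_zero_iff]
    rw [h1, tree_exact i j k₁ k₂ hk hgen]
    constructor
    · rintro ⟨y, hy⟩
      refine ⟨eY.symm y, ?_⟩
      have h2 := hf (eY.symm y)
      rw [LinearEquiv.apply_symm_apply, hy, Prod.mk.injEq] at h2
      exact Prod.ext (eA.injective h2.1) (eB.injective h2.2)
    · rintro ⟨y, rfl⟩
      exact ⟨eY y, (hf y).symm⟩
  have hprod := HasRes.prod (rA.mono (m := max nY (max nA nB)) (by omega))
    (rB.mono (m := max nY (max nA nB)) (by omega))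
  exact ⟨_, HasRes.cok f g hfi hgs hex (rY.mono (m := max nY (max nA nB)) (by omega)) hprod⟩

end Pool.Agent.H16.BV
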