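import Mathlib
import Pool.Agent.H16.BW.Ext

/-!
Change of rings: let `φ : R → S` be a ring homomorphism such that `S` has a finite resolution over
`R`. Then every `S`-module with a finite resolution has one over `R`.

PROOF. The modules `Fin j → S` have `HasRes R k` (induction on `j`: `Fin 0 → S` is zero,
`Fin (j+1) → S ≃ S × (Fin j → S)`, `Fin.consLinearEquiv` or so; all modules are `R`-modules by
`Module.compHom`, or by the given instance with `hM`). A finitely generated projective `S`-module `P`
has a `Q` with `P × Q ≃ (Fin j → S)` over `S`, hence over `R` (for a surjection `f : (Fin j → S) → P`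
with a section, `Q = ker f`), so `HasRes R k P` by `of_prod`. Then induction on `n` (for all `M`):
`n = 0`: this. `n + 1`: `0 → ker f → P → M → 0` is a sequence of `R`-modules, use `HasRes.cok`
(and `HasRes.mono`). It may be convenient to prove the statement first with the instance
`Module.compHom M φ`, and to use `HasRes.equiv` with the identity for the given instance.
-/

set_option autoImplicit false

namespace Pool.Agent.H16.BV

open Function

/-- A map which is linear over `S` is linear over `R`. -/
private def resL {R S : Type} [Ring R] [Ring S] (φ : R →+* S) {M N : Type} [AddCommGroup M]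
    [Module S M] [Module R M] [AddCommGroup N] [Module S N] [Module R N]
    (hM : ∀ (r : R) (m : M), r • m = φ r • m) (hN : ∀ (r : R) (m : N), r • m = φ r • m)
    (f : M →ₗ[S] N) : M →ₗ[R] N where
  toFun := f
  map_add' := f.map_add
  map_smul' r m := by rw [hM, f.map_smul, hN]; rfl

private theorem resL_apply {R S : Type} [Ring R] [Ring S] (φ : R →+* S) {M N : Type}
    [AddCommGroup M] [Module S M] [Module R M] [AddCommGroup N] [Module S N] [Module R N]
    (hM : ∀ (r : R) (m : M), r • m = φ r • m) (hN : ∀ (r : R) (m : N), r • m = φ r • m)
    (f : M →ₗ[S] N) (m : M) : resL φ hM hN f m = f m := rfl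

private theorem free_res {R S : Type} [Ring R] [Ring S] [Module R S] (k : ℕ)
    (hS : HasRes R k S) : ∀ j : ℕ, HasRes R k (Fin j → S)
  | 0 => by
    refine HasRes.mono (Nat.zero_le k) ?_
    exact ⟨inferInstance, inferInstance⟩
  | j + 1 => by
    have h := HasRes.prod hS (free_res k hS j)
    exact HasRes.equiv k (Fin.consLinearEquiv R (fun _ : Fin (j + 1) => S)) h

private theorem proj_res {R S : Type} [Ring R] [Ring S] (φ : R →+* S) [Module R S]
    (hRS : ∀ (r : R) (s : S), r • s = φ r * s) (k : ℕ) (hS : HasRes R k S) (P : Type)
    [AddCommGroup P] [Module S P] [Module R P] (hP : ∀ (r : R) (m : P), r • m = φ r • m)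
    (hf : Module.Finite S P) (hp : Module.Projective S P) : HasRes R k P := by
  obtain ⟨j, f, hfs⟩ := Module.Finite.exists_fin' S P
  obtain ⟨s, hs⟩ := Module.projective_lifting_property f (LinearMap.id : P →ₗ[S] P) hfs
  have hF : ∀ (r : R) (m : Fin j → S), r • m = φ r • m := by
    intro r m; funext i; simp [hRS]
  have hfs' : ∀ p : P, f (s p) = p := fun p => by
    have := LinearMap.congr_fun hs p
    simpa using this
  have e : (Fin j → S) ≃ₗ[R] P × LinearMap.ker (resL φ hF hP f) :=
    { toFun := fun x => (f x, ⟨x - s (f x), by
        rw [LinearMap.mem_ker, resL_apply, map_sub, hfs', sub_self]⟩)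
      map_add' := fun x y => by
        ext1
        · simp
        · apply Subtype.ext
          simp only [map_add, Prod.mk_add_mk, Submodule.coe_add]
          abel
      map_smul' := fun r x => by
        ext1
        · simp [hF, hP]
        · apply Subtype.ext
          simp only [RingHom.id_apply, Prod.smul_mk, Submodule.coe_smul, hF, map_smul, smul_sub]
      invFun := fun y => s y.1 + y.2.1
      left_inv := fun x => by simp
      right_inv := fun y => by
        obtain ⟨p, ⟨q, hq⟩⟩ := y
        rw [LinearMap.mem_ker, resL_apply] at hq
        ext1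
        · simp [hfs', hq]
        · apply Subtype.ext
          simp [hfs', hq] }
  exact HasRes.of_prod (HasRes.equiv k e (free_res k hS j))

theorem HasRes.change {R S : Type} [Ring R] [Ring S] (φ : R →+* S) [Module R S]
    (hRS : ∀ (r : R) (s : S), r • s = φ r * s) (k : ℕ) (hS : HasRes R k S) (n : ℕ) (M : Type)
    [AddCommGroup M] [Module S M] [Module R M] (hM : ∀ (r : R) (m : M), r • m = φ r • m)
    (h : HasRes S n M) : ∃ n', HasRes R n' M := by
  revert hM h
  induction n generalizing M with
  | zero =>
    intro hM h
    exact ⟨k, proj_res φ hRS k hS M hM h.1 h.2⟩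
  | succ n ih =>
    intro hM h
    obtain ⟨P, _, _, f, hfs, hfin, hproj, hk⟩ := h
    let _ : Module R P := Module.compHom P φ
    let _ : Module R (LinearMap.ker f) := Module.compHom (LinearMap.ker f) φ
    have hP : ∀ (r : R) (m : P), r • m = φ r • m := fun _ _ => rfl
    have hK : ∀ (r : R) (m : LinearMap.ker f), r • m = φ r • m := fun _ _ => rfl
    obtain ⟨n', h1⟩ := ih (LinearMap.ker f) hK hk
    have h2 := proj_res φ hRS k hS P hP hfin hproj
    refine ⟨max n' k + 1, HasRes.cok (resL φ hK hP (LinearMap.ker f).subtype)
      (resL φ hP hM f) ?_ ?_ ?_ (HasRes.mono (le_max_left _ _) h1)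
      (HasRes.mono (le_max_right _ _) h2)⟩
    · exact Subtype.val_injective
    · exact hfs
    · intro y
      constructor
      · intro hy
        exact ⟨⟨y, hy⟩, rfl⟩
      · rintro ⟨x, rfl⟩
        exact x.2

end Pool.Agent.H16.BV
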