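import Mathlib
import Pool.Agent.H16.BV.Complex

/-!
The infinite cyclic group is of type FP.

PROOF. `fp_of_complex` with `X 0 = X 1 = ` the group acting by multiplication, `bd 0` the map
`single g 1 ↦ single (g * t) 1 - single g 1` (it is injective, and its image is the kernel of the
augmentation), `X n = Empty` for `n ≥ 2`, `m = 2`. Or directly with `HasRes` and
`perm_free`. Injective: compare coefficients, a finitely supported function with
`z (n - 1) = z n` for all `n` is zero. Image: `single g 1 - single 1 1` is in the image for all `g` by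
induction.
-/

set_option autoImplicit false

namespace Pool.Agent.H16.BV

open Function

/-- The cells: two free orbits. -/
private def XX : ℕ → Type
  | 0 => Multiplicative ℤ
  | 1 => Multiplicative ℤ
  | _ + 2 => Empty

private instance XXact : ∀ n, MulAction (Multiplicative ℤ) (XX n)
  | 0 => inferInstanceAs (MulAction (Multiplicative ℤ) (Multiplicative ℤ))
  | 1 => inferInstanceAs (MulAction (Multiplicative ℤ) (Multiplicative ℤ))
  | _ + 2 =>
    { smul := fun _ x => x
      one_smul := fun _ => rfl
      mul_smul := fun _ _ _ => rfl }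

/-- The generator. -/
private def tt : Multiplicative ℤ := Multiplicative.ofAdd 1

/-- The boundary on the first chain group. -/
private noncomputable def bd1 : (Multiplicative ℤ →₀ ℤ) →ₗ[ℤ] (Multiplicative ℤ →₀ ℤ) :=
  Finsupp.linearCombination ℤ fun g => Finsupp.single (g * tt) 1 - Finsupp.single g 1

private theorem bd1_single (g : Multiplicative ℤ) (a : ℤ) :
    bd1 (Finsupp.single g a) = Finsupp.single (g * tt) a - Finsupp.single g a := by
  simp [bd1, smul_sub, Finsupp.smul_single]

private theorem bd1_apply (z : Multiplicative ℤ →₀ ℤ) (g : Multiplicative ℤ) :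
    bd1 z g = z (g * tt⁻¹) - z g := by
  induction z using Finsupp.induction_linear with
  | zero => simp
  | add a b ha hb =>
    rw [map_add, Finsupp.add_apply, ha, hb, Finsupp.add_apply, Finsupp.add_apply]
    ring
  | single h a =>
    rw [bd1_single, Finsupp.sub_apply, Finsupp.single_apply, Finsupp.single_apply,
      Finsupp.single_apply]
    congr 1
    by_cases hh : h * tt = g
    · rw [if_pos hh, if_pos (by rw [← hh]; group)]
    · rw [if_neg hh, if_neg (fun h2 => hh (by rw [h2]; group))]

private theorem bd1_inj (z : Multiplicative ℤ →₀ ℤ) (hz : bd1 z = 0) : z = 0 := by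
  have h1 : ∀ g, z (g * tt⁻¹) = z g := by
    intro g
    have := DFunLike.congr_fun hz g
    rw [bd1_apply, Finsupp.coe_zero, Pi.zero_apply, sub_eq_zero] at this
    exact this
  have h2 : ∀ n : ℤ, z (Multiplicative.ofAdd n) = z (Multiplicative.ofAdd 0) := by
    intro n
    induction n using Int.induction_on with
    | zero => rfl
    | succ i ih =>
      rw [← ih, ← h1 (Multiplicative.ofAdd ((i : ℤ) + 1))]
      congr 1
      rw [tt, ← ofAdd_neg, ← ofAdd_add]
      congr 1
      ring
    | pred i ih =>
      rw [← ih, ← h1 (Multiplicative.ofAdd (-(i : ℤ)))]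
      congr 1
  obtain ⟨g, hg⟩ := Infinite.exists_notMem_finset z.support
  have h3 : z (Multiplicative.ofAdd 0) = 0 := by
    rw [← h2 (Multiplicative.toAdd g)]
    exact Finsupp.notMem_support_iff.1 hg
  ext h
  rw [show h = Multiplicative.ofAdd (Multiplicative.toAdd h) from rfl, h2, h3]
  rfl

/-- The augmentation. -/
private noncomputable def aug : (Multiplicative ℤ →₀ ℤ) →ₗ[ℤ] ℤ :=
  Finsupp.linearCombination ℤ fun _ => (1 : ℤ)

private theorem aug_single (g : Multiplicative ℤ) (a : ℤ) : aug (Finsupp.single g a) = a := by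
  simp [aug]

private theorem aug_bd1 (z : Multiplicative ℤ →₀ ℤ) : aug (bd1 z) = 0 := by
  induction z using Finsupp.induction_linear with
  | zero => simp
  | add a b ha hb => rw [map_add, map_add, ha, hb, add_zero]
  | single h a => rw [bd1_single, map_sub, aug_single, aug_single, sub_self]

private theorem single_sub (n : ℤ) :
    ∃ y, bd1 y = Finsupp.single (Multiplicative.ofAdd n) (1 : ℤ) - Finsupp.single 1 1 := by
  induction n using Int.induction_on with
  | zero => exact ⟨0, by rw [map_zero, ofAdd_zero, sub_self]⟩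
  | succ i ih =>
    obtain ⟨y, hy⟩ := ih
    refine ⟨y + Finsupp.single (Multiplicative.ofAdd (i : ℤ)) 1, ?_⟩
    rw [map_add, hy, bd1_single, tt, ← ofAdd_add]
    abel
  | pred i ih =>
    obtain ⟨y, hy⟩ := ih
    refine ⟨y - Finsupp.single (Multiplicative.ofAdd (-(i : ℤ) - 1)) 1, ?_⟩
    rw [map_sub, hy, bd1_single, tt, ← ofAdd_add, sub_add_cancel]
    abel

private theorem sub_aug (z : Multiplicative ℤ →₀ ℤ) :
    ∃ y, bd1 y = z - Finsupp.single 1 (aug z) := by
  induction z using Finsupp.induction_linear with
  | zero => exact ⟨0, by simp⟩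
  | add a b ha hb =>
    obtain ⟨y, hy⟩ := ha
    obtain ⟨y', hy'⟩ := hb
    refine ⟨y + y', ?_⟩
    rw [map_add, hy, hy', map_add, Finsupp.single_add]
    abel
  | single h a =>
    obtain ⟨y, hy⟩ := single_sub (Multiplicative.toAdd h)
    refine ⟨a • y, ?_⟩
    rw [map_smul, hy, aug_single, smul_sub, Finsupp.smul_single, Finsupp.smul_single, smul_eq_mul,
      mul_one]
    rfl

private theorem aug_zero_iff (z : Multiplicative ℤ →₀ ℤ) : aug z = 0 ↔ ∃ y, bd1 y = z := by
  constructor
  · intro h
    obtain ⟨y, hy⟩ := sub_aug z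
    exact ⟨y, by rw [hy, h, Finsupp.single_zero, sub_zero]⟩
  · rintro ⟨y, rfl⟩
    exact aug_bd1 y

/-- The boundaries. -/
private noncomputable def BB : ∀ n, (XX (n + 1) →₀ ℤ) →ₗ[ℤ] (XX n →₀ ℤ)
  | 0 => bd1
  | _ + 1 => 0

private theorem permRep_mul (q : Multiplicative ℤ) (z : Multiplicative ℤ →₀ ℤ) :
    bd1 (permRep (Multiplicative ℤ) (Multiplicative ℤ) q z) =
      permRep (Multiplicative ℤ) (Multiplicative ℤ) q (bd1 z) := by
  induction z using Finsupp.induction_linear with
  | zero => simp
  | add a b ha hb => rw [map_add, map_add, ha, hb, map_add, map_add]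
  | single h a =>
    rw [permRep_single, bd1_single, bd1_single, map_sub, permRep_single, permRep_single,
      smul_eq_mul, smul_eq_mul, mul_assoc]

private theorem aug_perm (q : Multiplicative ℤ) (z : Multiplicative ℤ →₀ ℤ) :
    aug (permRep (Multiplicative ℤ) (Multiplicative ℤ) q z) = aug z := by
  induction z using Finsupp.induction_linear with
  | zero => simp
  | add a b ha hb => rw [map_add, map_add, ha, hb, map_add]
  | single h a => rw [permRep_single, aug_single, aug_single]

private instance (n : ℕ) : IsEmpty (XX (n + 2)) := inferInstanceAs (IsEmpty Empty)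

private theorem mul_free (q x : Multiplicative ℤ) (h : q • x = x) : q = 1 :=
  mul_eq_right.1 h

private theorem one_orbit : ∃ S : Set (Multiplicative ℤ), S.Finite ∧
    ∀ x : Multiplicative ℤ, ∃ q : Multiplicative ℤ, q • x ∈ S :=
  ⟨{1}, Set.finite_singleton _, fun x => ⟨x⁻¹, inv_mul_cancel x⟩⟩

theorem fp_int : FP (Multiplicative ℤ) := by
  refine fp_of_complex XX ?_ ?_ BB ?_ aug ?_ ?_ ?_ ?_ 2 (inferInstanceAs (IsEmpty Empty))
  · rintro (_ | _ | n) q x h
    · exact mul_free q x h
    · exact mul_free q x h
    · exact isEmptyElim x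
  · rintro (_ | _ | n)
    · exact one_orbit
    · exact one_orbit
    · exact ⟨∅, Set.finite_empty, fun x => isEmptyElim x⟩
  · rintro (_ | n) q z
    · exact permRep_mul q z
    · show (0 : _ →ₗ[ℤ] _) _ = permRep _ _ q ((0 : _ →ₗ[ℤ] _) z)
      simp
  · exact aug_perm
  · intro a
    exact ⟨Finsupp.single (1 : Multiplicative ℤ) a, aug_single _ _⟩
  · exact aug_zero_iff
  · rintro (_ | n) z
    · constructor
      · intro h
        exact ⟨0, by rw [map_zero]; exact (bd1_inj z h).symm⟩
      · rintro ⟨y, hy⟩
        have h0 : y = 0 := Subsingleton.elim _ _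
        rw [← hy, h0, map_zero, map_zero]
    · have h0 : z = 0 := Subsingleton.elim _ _
      constructor
      · intro _
        exact ⟨0, by rw [map_zero, h0]⟩
      · intro _
        rw [h0, map_zero]

end Pool.Agent.H16.BV
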