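import Mathlib
import Pool.Agent.H16.BW.IndB
import Pool.Agent.H16.BW.Change

/-!
The product of two groups of type FP is of type FP.

PROOF. Let `R = ℤ[G × K]`, `S = ℤ[K]`, `φ : R → S` induced by the projection
(`MonoidAlgebra.mapDomainRingHom`). `S` as an `R`-module is isomorphic to
`permRep (G × K) ((G × K) / G)` where `G` is the range of `MonoidHom.inl G K` (the map
`(G × K) ⧸ range inl → K` is a bijection), so it has a finite resolution by `hasRes_perm` for
`MonoidHom.inl G K`. The trivial `S`-module `ℤ` has a finite resolution; by `HasRes.change` the same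
module over `R` has one, and it is the trivial module over `R`.
-/

set_option autoImplicit false

namespace Pool.Agent.H16.BV

open Function

private theorem lin_of_single {Q M N : Type} [Group Q] [AddCommGroup M]
    [Module (MonoidAlgebra ℤ Q) M] [AddCommGroup N] [Module (MonoidAlgebra ℤ Q) N] (f : M →+ N)
    (h : ∀ (q : Q) (z : M), f (MonoidAlgebra.single q (1 : ℤ) • z) =
      MonoidAlgebra.single q (1 : ℤ) • f z) (r : MonoidAlgebra ℤ Q) (z : M) :
    f (r • z) = r • f z := by
  induction r using MonoidAlgebra.induction_linear with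
  | zero => simp
  | add a b ha hb => rw [add_smul, map_add, ha, hb, add_smul]
  | single q a =>
    have e : MonoidAlgebra.single q a = a • MonoidAlgebra.single q (1 : ℤ) := by
      simp
    rw [e, smul_assoc, map_zsmul, h, smul_assoc]

private noncomputable def quotE (G K : Type) [Group G] [Group K] :
    (G × K) ⧸ (MonoidHom.inl G K).range ≃ K :=
  Equiv.ofBijective (Quotient.lift (fun p : G × K => p.2) (by
    intro a b hab
    have h : a⁻¹ * b ∈ (MonoidHom.inl G K).range := QuotientGroup.leftRel_apply.1 hab
    obtain ⟨g, hg⟩ := h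
    have h2 : (1 : K) = a.2⁻¹ * b.2 := congrArg Prod.snd hg
    show a.2 = b.2
    rw [← mul_one a.2, h2, mul_inv_cancel_left])) (by
    constructor
    · intro x y
      induction x using Quotient.inductionOn with
      | h a =>
        induction y using Quotient.inductionOn with
        | h b =>
          intro hxy
          have h1 : a.2 = b.2 := hxy
          apply Quotient.sound
          apply QuotientGroup.leftRel_apply.2
          refine ⟨a.1⁻¹ * b.1, ?_⟩
          ext
          · rfl
          · show (1 : K) = a.2⁻¹ * b.2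
            rw [h1, inv_mul_cancel]
    · intro k
      exact ⟨Quotient.mk _ (1, k), rfl⟩)

private theorem quotE_smul (G K : Type) [Group G] [Group K] (q : G × K)
    (x : (G × K) ⧸ (MonoidHom.inl G K).range) : quotE G K (q • x) = q.2 * quotE G K x := by
  induction x using Quotient.inductionOn with
  | h a => rfl

theorem fp_prod {G K : Type} [Group G] [Group K] (hG : FP G) (hK : FP K) : FP (G × K) := by
  classical
  obtain ⟨n, hn⟩ := hasRes_perm (MonoidHom.inl G K)
    (fun a b h => congrArg Prod.fst h) hG
  obtain ⟨m, hm⟩ := hK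
  let φ : MonoidAlgebra ℤ (G × K) →+* MonoidAlgebra ℤ K :=
    MonoidAlgebra.mapDomainRingHom ℤ (MonoidHom.snd G K)
  have hφ : ∀ (q : G × K) (a : ℤ), φ (MonoidAlgebra.single q a) = MonoidAlgebra.single q.2 a := by
    intro q a
    simp [φ]
  let i1 : Module (MonoidAlgebra ℤ (G × K)) (MonoidAlgebra ℤ K) :=
    Module.compHom (MonoidAlgebra ℤ K) φ
  let i2 : Module (MonoidAlgebra ℤ (G × K)) (Representation.trivial ℤ K ℤ).asModule :=
    Module.compHom (Representation.trivial ℤ K ℤ).asModule φ
  have s1 : ∀ (r : MonoidAlgebra ℤ (G × K)) (s : MonoidAlgebra ℤ K), r • s = φ r * s :=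
    fun r s => rfl
  have s2 : ∀ (r : MonoidAlgebra ℤ (G × K)) (s : (Representation.trivial ℤ K ℤ).asModule),
      r • s = φ r • s := fun r s => rfl
  -- the resolution of S
  let F : (permRep (G × K) ((G × K) ⧸ (MonoidHom.inl G K).range)).asModule ≃+ MonoidAlgebra ℤ K :=
    (permRep (G × K) ((G × K) ⧸ (MonoidHom.inl G K).range)).asModuleEquiv.toAddEquiv.trans
      ((Finsupp.domLCongr (quotE G K) :
        (((G × K) ⧸ (MonoidHom.inl G K).range) →₀ ℤ) ≃ₗ[ℤ] (K →₀ ℤ)).toAddEquiv.trans
        (MonoidAlgebra.coeffLinearEquiv ℤ).symm.toAddEquiv)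
  have hF : ∀ z, F z = (MonoidAlgebra.coeffLinearEquiv ℤ).symm
      ((Finsupp.domLCongr (quotE G K) :
        (((G × K) ⧸ (MonoidHom.inl G K).range) →₀ ℤ) ≃ₗ[ℤ] (K →₀ ℤ))
        ((permRep (G × K) ((G × K) ⧸ (MonoidHom.inl G K).range)).asModuleEquiv z)) :=
    fun z => rfl
  have hFlin : ∀ (r : MonoidAlgebra ℤ (G × K)) z, F (r • z) = r • F z := by
    intro r z
    refine lin_of_single F.toAddMonoidHom ?_ r z
    intro q z
    show F (MonoidAlgebra.single q (1 : ℤ) • z) = MonoidAlgebra.single q (1 : ℤ) • F z
    rw [hF, hF, Representation.asModuleEquiv_map_smul, Representation.asAlgebraHom_single, s1, hφ,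
      one_smul]
    generalize (permRep (G × K) ((G × K) ⧸ (MonoidHom.inl G K).range)).asModuleEquiv z = y
    induction y using Finsupp.induction_linear with
    | zero => simp
    | add a b ha hb => rw [map_add, map_add, map_add, map_add, map_add, mul_add, ha, hb]
    | single x b =>
      rw [permRep_single, Finsupp.domLCongr_single, Finsupp.domLCongr_single, quotE_smul]
      simp [MonoidAlgebra.single_mul_single]
  let FL : (permRep (G × K) ((G × K) ⧸ (MonoidHom.inl G K).range)).asModule
      ≃ₗ[MonoidAlgebra ℤ (G × K)] MonoidAlgebra ℤ K :=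
    { F with map_smul' := hFlin }
  have hS : HasRes (MonoidAlgebra ℤ (G × K)) n (MonoidAlgebra ℤ K) := HasRes.equiv n FL hn
  obtain ⟨n', hn'⟩ := HasRes.change φ s1 n hS m (Representation.trivial ℤ K ℤ).asModule s2 hm
  refine ⟨n', ?_⟩
  let T : (Representation.trivial ℤ K ℤ).asModule ≃+ (Representation.trivial ℤ (G × K) ℤ).asModule :=
    (Representation.trivial ℤ K ℤ).asModuleEquiv.toAddEquiv.trans
      (Representation.trivial ℤ (G × K) ℤ).asModuleEquiv.symm.toAddEquiv
  have hT : ∀ z, T z = (Representation.trivial ℤ (G × K) ℤ).asModuleEquiv.symm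
      ((Representation.trivial ℤ K ℤ).asModuleEquiv z) := fun z => rfl
  have hTlin : ∀ (r : MonoidAlgebra ℤ (G × K)) z, T (r • z) = r • T z := by
    intro r z
    refine lin_of_single T.toAddMonoidHom ?_ r z
    intro q z
    show T (MonoidAlgebra.single q (1 : ℤ) • z) = MonoidAlgebra.single q (1 : ℤ) • T z
    apply (Representation.trivial ℤ (G × K) ℤ).asModuleEquiv.injective
    rw [hT, hT, LinearEquiv.apply_symm_apply, s2, hφ, Representation.asModuleEquiv_map_smul,
      Representation.asModuleEquiv_map_smul, LinearEquiv.apply_symm_apply,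
      Representation.asAlgebraHom_single, Representation.asAlgebraHom_single]
    simp
  let TL : (Representation.trivial ℤ K ℤ).asModule ≃ₗ[MonoidAlgebra ℤ (G × K)]
      (Representation.trivial ℤ (G × K) ℤ).asModule :=
    { T with map_smul' := hTlin }
  exact HasRes.equiv n' TL hn'

end Pool.Agent.H16.BV
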