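import Mathlib

/-!
The product of two finitely presented groups is finitely presented; amalgamated products of finitely
presented groups over a finitely generated group are finitely presented.

PROOF. Product: `Monoid.Coprod G K` is finitely presented (instance in Mathlib), the homomorphism
`Monoid.Coprod.toProd` (or `lift (inl) (inr)`) to `G × K` is surjective. Its kernel is the normal
closure `N` of the finite set of commutators of `inl a`, `inr b` for `a ∈ A`, `b ∈ B` finite
generating sets of `G` and `K`: in the quotient by `N` the images of all `inl g`, `inr k` commute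
(`Subgroup.closure_induction` twice), so there is a homomorphism `G × K → Coprod / N`
(`MonoidHom.noncommCoprod`), inverse to the surjection. `Group.IsFinitelyPresented.of_surjective`.
Amalgam: the normal closure of the set of all `inl (i y) * (inr (j y))⁻¹` is the normal closure of
the finite set of those with `y` in a finite generating set: modulo the smaller one, the set of all
`y` with `inl (i y) = inr (j y)` is a subgroup. `Group.IsFinitelyPresented.quotient`.
-/

set_option autoImplicit false

namespace Pool.Agent.H16.BV

open Function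
open scoped commutatorElement

private theorem pres_gen (G : Type) [Group G] [h : Group.IsFinitelyPresented G] :
    ∃ S : Set G, S.Finite ∧ Subgroup.closure S = ⊤ := by
  obtain ⟨n, φ, hφ, -⟩ := h.out
  refine ⟨φ '' Set.range FreeGroup.of, (Set.finite_range _).image _, ?_⟩
  rw [← MonoidHom.map_closure, FreeGroup.closure_range_of, ← MonoidHom.range_eq_map]
  exact MonoidHom.range_eq_top.2 hφ

theorem pres_prod {G K : Type} [Group G] [Group K] [Group.IsFinitelyPresented G]
    [Group.IsFinitelyPresented K] : Group.IsFinitelyPresented (G × K) := by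
  obtain ⟨A, hA, hA'⟩ := pres_gen G
  obtain ⟨B, hB, hB'⟩ := pres_gen K
  let S : Set (Monoid.Coprod G K) :=
    (fun p : G × K => ⁅(Monoid.Coprod.inl p.1 : Monoid.Coprod G K), Monoid.Coprod.inr p.2⁆) ''
      (A ×ˢ B)
  have hS : S.Finite := (hA.prod hB).image _
  refine Group.IsFinitelyPresented.of_surjective
    (Monoid.Coprod.toProd : Monoid.Coprod G K →* G × K) Monoid.Coprod.toProd_surjective
    ⟨S, hS, ?_⟩
  refine le_antisymm ?_ ?_
  · refine Subgroup.normalClosure_le_normal ?_
    rintro x ⟨p, -, rfl⟩
    rw [SetLike.mem_coe, MonoidHom.mem_ker, map_commutatorElement,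
      commutatorElement_eq_one_iff_commute]
    rw [Monoid.Coprod.toProd_apply_inl, Monoid.Coprod.toProd_apply_inr]
    show _ = _
    simp
  · let π : Monoid.Coprod G K →* Monoid.Coprod G K ⧸ Subgroup.normalClosure S :=
      QuotientGroup.mk' _
    have h0 : ∀ a ∈ A, ∀ b ∈ B, Commute (π (Monoid.Coprod.inl a)) (π (Monoid.Coprod.inr b)) := by
      intro a ha b hb
      rw [← commutatorElement_eq_one_iff_commute, ← map_commutatorElement]
      rw [← MonoidHom.mem_ker, QuotientGroup.ker_mk']
      exact Subgroup.subset_normalClosure ⟨(a, b), ⟨ha, hb⟩, rfl⟩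
    have h1 : ∀ g : G, ∀ b ∈ B,
        Commute (π (Monoid.Coprod.inl g)) (π (Monoid.Coprod.inr b)) := by
      intro g b hb
      have hg : g ∈ Subgroup.closure A := by rw [hA']; trivial
      induction hg using Subgroup.closure_induction with
      | mem x hx => exact h0 x hx b hb
      | one => rw [map_one, map_one]; exact Commute.one_left _
      | mul x y _ _ hx hy => rw [map_mul, map_mul]; exact Commute.mul_left hx hy
      | inv x _ hx => rw [map_inv, map_inv]; exact Commute.inv_left hx
    have h2 : ∀ g : G, ∀ k : K,
        Commute (π (Monoid.Coprod.inl g)) (π (Monoid.Coprod.inr k)) := by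
      intro g k
      have hk : k ∈ Subgroup.closure B := by rw [hB']; trivial
      induction hk using Subgroup.closure_induction with
      | mem x hx => exact h1 g x hx
      | one => rw [map_one, map_one]; exact Commute.one_right _
      | mul x y _ _ hx hy => rw [map_mul, map_mul]; exact Commute.mul_right hx hy
      | inv x _ hx => rw [map_inv, map_inv]; exact Commute.inv_right hx
    let ψ : G × K →* Monoid.Coprod G K ⧸ Subgroup.normalClosure S :=
      MonoidHom.noncommCoprod (π.comp Monoid.Coprod.inl) (π.comp Monoid.Coprod.inr) h2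
    have h3 : ψ.comp Monoid.Coprod.toProd = π := by
      refine Monoid.Coprod.hom_ext ?_ ?_
      · ext g
        simp [ψ]
      · ext k
        simp [ψ]
    intro x hx
    rw [MonoidHom.mem_ker] at hx
    have h4 : π x = 1 := by
      rw [← h3, MonoidHom.comp_apply, hx, map_one]
    rw [← MonoidHom.mem_ker, QuotientGroup.ker_mk'] at h4
    exact h4

theorem pres_amal {Y A B : Type} [Group Y] [Group A] [Group B] [Group.IsFinitelyPresented Y]
    [Group.IsFinitelyPresented A] [Group.IsFinitelyPresented B] (i : Y →* A) (j : Y →* B) :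
    Group.IsFinitelyPresented (Monoid.Coprod A B ⧸ Subgroup.normalClosure (Set.range fun y : Y =>
      (Monoid.Coprod.inl (i y) : Monoid.Coprod A B) * (Monoid.Coprod.inr (j y))⁻¹)) := by
  obtain ⟨T, hT, hT'⟩ := pres_gen Y
  refine Group.IsFinitelyPresented.quotient _ ⟨(fun y : Y =>
      (Monoid.Coprod.inl (i y) : Monoid.Coprod A B) * (Monoid.Coprod.inr (j y))⁻¹) '' T,
    hT.image _, ?_⟩
  refine le_antisymm (Subgroup.normalClosure_mono (Set.image_subset_range _ _)) ?_
  refine Subgroup.normalClosure_le_normal ?_
  rintro x ⟨y, rfl⟩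
  let π : Monoid.Coprod A B →* Monoid.Coprod A B ⧸ Subgroup.normalClosure ((fun y : Y =>
      (Monoid.Coprod.inl (i y) : Monoid.Coprod A B) * (Monoid.Coprod.inr (j y))⁻¹) '' T) :=
    QuotientGroup.mk' _
  have h1 : Subgroup.closure T ≤ MonoidHom.eqLocus (π.comp (Monoid.Coprod.inl.comp i))
      (π.comp (Monoid.Coprod.inr.comp j)) := by
    rw [Subgroup.closure_le]
    intro t ht
    have h2 : π (Monoid.Coprod.inl (i t) * (Monoid.Coprod.inr (j t))⁻¹) = 1 := by
      rw [← MonoidHom.mem_ker, QuotientGroup.ker_mk']
      exact Subgroup.subset_normalClosure ⟨t, ht, rfl⟩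
    rw [map_mul, map_inv, mul_inv_eq_one] at h2
    exact h2
  have h3 : y ∈ MonoidHom.eqLocus (π.comp (Monoid.Coprod.inl.comp i))
      (π.comp (Monoid.Coprod.inr.comp j)) := h1 (by rw [hT']; trivial)
  have h4 : π (Monoid.Coprod.inl (i y)) = π (Monoid.Coprod.inr (j y)) := h3
  have h5 : π (Monoid.Coprod.inl (i y) * (Monoid.Coprod.inr (j y))⁻¹) = 1 := by
    rw [map_mul, map_inv, mul_inv_eq_one]
    exact h4
  rw [← MonoidHom.mem_ker, QuotientGroup.ker_mk'] at h5
  exact h5

end Pool.Agent.H16.BV
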